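import Pool.Agent.Helper61.MI.Defs

set_option autoImplicit false

/-! Linear coordinates on `ℂ³` and membership in the weighted ideals. -/

noncomputable section

namespace Pool.Agent.Helper61.MI

open MvPolynomial

/-- The substitution `Xᵢ ↦ lin (ℓ i)`. -/
def subst (ℓ : Fin 3 → Fin 3 → ℂ) : S →ₐ[ℂ] S := aeval fun i => lin (ℓ i)

@[simp] lemma subst_X (ℓ : Fin 3 → Fin 3 → ℂ) (i : Fin 3) : subst ℓ (X i) = lin (ℓ i) := by
  simp [subst]

lemma lin_sum (a : Fin 3 → ℂ) (N : Fin 3 → Fin 3 → ℂ) :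
    ∑ j, C (a j) * lin (N j) = lin (fun k => ∑ j, a j * N j k) := by
  simp only [lin, Finset.mul_sum]
  rw [Finset.sum_comm]
  refine Finset.sum_congr rfl fun k _ => ?_
  rw [map_sum, Finset.sum_mul]
  refine Finset.sum_congr rfl fun j _ => ?_
  rw [C_mul]
  ring

lemma subst_lin (N : Fin 3 → Fin 3 → ℂ) (a : Fin 3 → ℂ) :
    subst N (lin a) = lin (fun k => ∑ j, a j * N j k) := by
  rw [← lin_sum]
  simp [lin, subst, algebraMap_eq]

lemma lin_single (i : Fin 3) : lin (fun k => if i = k then 1 else 0) = X i := by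
  simp [lin, Finset.sum_ite_eq]

lemma subst_comp (ℓ N : Fin 3 → Fin 3 → ℂ) (h : Matrix.of ℓ * Matrix.of N = 1) :
    (subst N).comp (subst ℓ) = AlgHom.id ℂ S := by
  apply MvPolynomial.algHom_ext
  intro i
  have h1 : (fun k => ∑ j, ℓ i j * N j k) = fun k => if i = k then (1 : ℂ) else 0 := by
    funext k
    have := congrFun (congrFun h i) k
    simpa [Matrix.mul_apply, Matrix.one_apply] using this
  simp [subst_lin, h1, lin_single]

/-- The inverse of the matrix of a coordinate system. -/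
def inv3 (ℓ : Fin 3 → Fin 3 → ℂ) : Fin 3 → Fin 3 → ℂ := fun i => ((Matrix.of ℓ)⁻¹) i

lemma isUnit_det (ℓ : Fin 3 → Fin 3 → ℂ) (hℓ : LinearIndependent ℂ ℓ) :
    IsUnit (Matrix.of ℓ).det := by
  rw [← Matrix.isUnit_iff_isUnit_det]
  exact Matrix.linearIndependent_rows_iff_isUnit.1 hℓ

/-- The automorphism `Xᵢ ↦ lin (ℓ i)` of `S`. -/
def coord (ℓ : Fin 3 → Fin 3 → ℂ) (hℓ : LinearIndependent ℂ ℓ) : S ≃ₐ[ℂ] S :=
  AlgEquiv.ofAlgHom (subst ℓ) (subst (inv3 ℓ))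
    (subst_comp (inv3 ℓ) ℓ (Matrix.nonsing_inv_mul _ (isUnit_det ℓ hℓ)))
    (subst_comp ℓ (inv3 ℓ) (Matrix.mul_nonsing_inv _ (isUnit_det ℓ hℓ)))

@[simp] lemma coord_X (ℓ : Fin 3 → Fin 3 → ℂ) (hℓ : LinearIndependent ℂ ℓ) (i : Fin 3) :
    coord ℓ hℓ (X i) = lin (ℓ i) := subst_X ℓ i

lemma coord_apply (ℓ : Fin 3 → Fin 3 → ℂ) (hℓ : LinearIndependent ℂ ℓ) (f : S) :
    coord ℓ hℓ f = aeval (fun i => lin (ℓ i)) f := rfl

@[simp] lemma coord_symm_lin (ℓ : Fin 3 → Fin 3 → ℂ) (hℓ : LinearIndependent ℂ ℓ) (i : Fin 3) :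
    (coord ℓ hℓ).symm (lin (ℓ i)) = X i := by
  rw [AlgEquiv.symm_apply_eq, coord_X]

/-- The expansion of `f` in the coordinates `lin (ℓ i)`. -/
lemma eq_sum (ℓ : Fin 3 → Fin 3 → ℂ) (hℓ : LinearIndependent ℂ ℓ) (f : S) :
    f = ∑ e ∈ ((coord ℓ hℓ).symm f).support,
      C (coeff e ((coord ℓ hℓ).symm f)) * ∏ i, lin (ℓ i) ^ e i := by
  conv_lhs => rw [← (coord ℓ hℓ).apply_symm_apply f]
  rw [coord_apply, aeval_def, eval₂_eq']
  rfl

lemma monomial_eq_prod (e : Fin 3 →₀ ℕ) : monomial e (1 : ℂ) = ∏ i, (X i : S) ^ e i := by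
  rw [monomial_eq, C_1, one_mul, Finsupp.prod_fintype]
  simp

lemma mem_wIdeal_iff (ℓ : Fin 3 → Fin 3 → ℂ) (hℓ : LinearIndependent ℂ ℓ) (w : Fin 3 → ℕ) (n : ℕ)
    (f : S) :
    f ∈ wIdeal ℓ w n ↔ ∀ e ∈ ((coord ℓ hℓ).symm f).support, n ≤ ∑ i, w i * e i := by
  have h1 : wIdeal ℓ w n = Ideal.map (coord ℓ hℓ : S ≃+* S)
      (Ideal.span ((fun e : Fin 3 →₀ ℕ => monomial e (1 : ℂ)) '' {e | n ≤ ∑ i, w i * e i})) := by
    rw [Ideal.map_span]
    unfold wIdeal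
    congr 1
    ext g
    constructor
    · rintro ⟨e, he, rfl⟩
      refine ⟨monomial (Finsupp.equivFunOnFinite.symm e) 1,
        ⟨Finsupp.equivFunOnFinite.symm e, by simpa using he, rfl⟩, ?_⟩
      rw [monomial_eq_prod]
      simp [map_prod]
    · rintro ⟨_, ⟨e, he, rfl⟩, rfl⟩
      refine ⟨e, he, ?_⟩
      simp only [monomial_eq_prod]
      simp [map_prod]
  have h2 : f ∈ wIdeal ℓ w n ↔ (coord ℓ hℓ).symm f ∈
      (Ideal.span ((fun e : Fin 3 →₀ ℕ => monomial e (1 : ℂ)) '' {e | n ≤ ∑ i, w i * e i})) := by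
    rw [h1, ← Ideal.comap_symm, Ideal.mem_comap]
    rfl
  rw [h2, mem_ideal_span_monomial_image]
  constructor
  · intro h e he
    obtain ⟨e', he', hle⟩ := h e he
    exact le_trans he' (Finset.sum_le_sum fun i _ => Nat.mul_le_mul_left _ (hle i))
  · intro h e he
    exact ⟨e, h e he, le_rfl⟩

end Pool.Agent.Helper61.MI
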