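import Mathlib

set_option autoImplicit false

/-!
# Multiplier ideals of ideals of points in the plane: definitions

`S = ℂ[x₀,x₁,x₂]`, `K` its field of fractions.  Multiplier ideals on `ℂ³` are defined through
divisorial valuations.
-/

noncomputable section

namespace Pool.Agent.Helper61.MI

open MvPolynomial

/-- The coordinate ring `ℂ[x₀,x₁,x₂]` of `ℂ³`. -/
abbrev S : Type := MvPolynomial (Fin 3) ℂ

/-- The function field `ℂ(x₀,x₁,x₂)` of `ℂ³`. -/
abbrev K : Type := FractionRing S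

/-- The projective plane `ℙ²` over `ℂ`. -/
abbrev Plane : Type := Projectivization ℂ (Fin 3 → ℂ)

/-! ### The derivations `∂/∂xᵢ` of the function field -/

/-- The ring homomorphism `S → K[ε]`, `f ↦ f + ε ∂f/∂xᵢ`, i.e. `xⱼ ↦ xⱼ` for `j ≠ i` and
`xᵢ ↦ xᵢ + ε`. -/
def dualHom (i : Fin 3) : S →ₐ[ℂ] DualNumber K :=
  aeval fun j => TrivSqZeroExt.inl (algebraMap S K (X j)) +
    TrivSqZeroExt.inr (if j = i then (1 : K) else 0)

lemma fst_dualHom (i : Fin 3) (f : S) :
    TrivSqZeroExt.fst (dualHom i f) = algebraMap S K f := by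
  have h : ((TrivSqZeroExt.fstHom ℂ K K).comp (dualHom i)) = (IsScalarTower.toAlgHom ℂ S K) := by
    apply MvPolynomial.algHom_ext
    intro j
    by_cases hj : j = i <;> simp [dualHom, hj]
  exact DFunLike.congr_fun h f

lemma isUnit_dualHom (i : Fin 3) (f : nonZeroDivisors S) :
    IsUnit ((dualHom i).toRingHom (f : S)) := by
  have h : TrivSqZeroExt.fst (dualHom i (f : S)) ≠ 0 := by
    rw [fst_dualHom]
    exact IsFractionRing.to_map_ne_zero_of_mem_nonZeroDivisors f.2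
  exact TrivSqZeroExt.isUnit_iff_isUnit_fst.2 (isUnit_iff_ne_zero.2 h)

/-- The extension of `f ↦ f + ε ∂f/∂xᵢ` to the function field. -/
def dualHomK (i : Fin 3) : K →+* DualNumber K :=
  IsLocalization.lift (M := nonZeroDivisors S) (g := (dualHom i).toRingHom) (isUnit_dualHom i)

/-- The derivation `∂/∂xᵢ` of the function field `K`: the coefficient of `ε` in
`f(x₀, …, xᵢ + ε, …)`. -/
def pd (i : Fin 3) (f : K) : K := TrivSqZeroExt.snd (dualHomK i f)

/-- The Jacobian determinant `det (∂hᵢ/∂xⱼ)` of three rational functions. -/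
def jac (h : Fin 3 → K) : K := (Matrix.of fun i j => pd j (h i)).det

/-! ### Divisorial valuations and multiplier ideals -/

/-- The value of a rational function as an extended real number. -/
def toE : WithTop ℤ → EReal
  | ⊤ => ⊤
  | (n : ℤ) => ((n : ℝ) : EReal)

/-- `v` is the order of vanishing `ord_E` along a prime divisor `E` over `ℂ³`: it is non-negative
on `S`, it takes the value `1`, and its residue field has transcendence degree at least `2` over
`ℂ` (hence exactly `2`), i.e. there are `a b : K` such that `v (P(a,b)) = 0` for every non-zero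
polynomial `P` in two variables. -/
def IsDivisorial (v : AddValuation K (WithTop ℤ)) : Prop :=
  (∀ f : S, 0 ≤ v (algebraMap S K f)) ∧ (∃ u : K, v u = 1) ∧
    ∃ a : Fin 2 → K, ∀ P : MvPolynomial (Fin 2) ℂ, P ≠ 0 → v (aeval a P) = 0

/-- The log discrepancy `A(v) = 1 + ord_E(K_{Y/ℂ³})`, where `E ⊂ Y → ℂ³` is the prime divisor of
`v`.  If `u₀,u₁,u₂` are local coordinates of `Y` at the generic point of `E`, the relative
canonical divisor has order `ord_E (det (∂xᵢ/∂uⱼ)) = - ord_E (det (∂uᵢ/∂xⱼ))` along `E`, and every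
other triple `h` of regular functions at the generic point of `E` has
`ord_E (jac h) ≥ ord_E (jac u)`.  So `A(v)` is the supremum of `1 - v (jac h)` over all triples `h`
in the valuation ring of `v`. -/
def logDisc (v : AddValuation K (WithTop ℤ)) : EReal :=
  ⨆ (h : Fin 3 → K) (_ : ∀ i, 0 ≤ v (h i)), (1 - toE (v (jac h)))

/-- `v(𝔞) = min {v(g) : g ∈ 𝔞}`. -/
def ordI (v : AddValuation K (WithTop ℤ)) (I : Ideal S) : EReal :=
  ⨅ g ∈ I, toE (v (algebraMap S K g))

/-- The multiplier ideal `𝒥(𝔞^c)` of a non-zero ideal `𝔞` of `S` and `c > 0`: all `f ∈ S` with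
`v(f) + A(v) > c · v(𝔞)` for every divisorial valuation `v`.  For a log resolution
`μ : Y → ℂ³` with `𝔞 · 𝒪_Y = 𝒪_Y(-F)` this is `μ_* 𝒪_Y(K_{Y/ℂ³} - ⌊cF⌋)`. -/
def multiplier (I : Ideal S) (c : ℝ) : Set S :=
  {f | ∀ v : AddValuation K (WithTop ℤ), IsDivisorial v →
    (c : EReal) * ordI v I < toE (v (algebraMap S K f)) + logDisc v}

/-- `c` is a jumping number of `𝔞`: `𝒥(𝔞^{c-ε}) ≠ 𝒥(𝔞^c)` for all `0 < ε < c`. -/
def IsJumpingNumber (I : Ideal S) (c : ℝ) : Prop :=
  0 < c ∧ ∀ ε : ℝ, 0 < ε → ε < c → multiplier I (c - ε) ≠ multiplier I c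

/-! ### Points of the plane -/

/-- The affine cone over a set of points of the plane. -/
def cone (Z : Set Plane) : Set (Fin 3 → ℂ) := {x | ∃ p ∈ Z, ∃ t : ℂ, x = t • p.rep}

/-- The saturated homogeneous ideal `I(Z)` of a reduced set `Z` of points of the plane: all
polynomials which vanish on the affine cone over `Z`. -/
def idealOf (Z : Set Plane) : Ideal S := vanishingIdeal ℂ (cone Z)

/-- The linear form `a₀x₀ + a₁x₁ + a₂x₂`. -/
def lin (a : Fin 3 → ℂ) : S := ∑ i, C (a i) * X i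

/-- The point `p` lies on the line with equation `lin a = 0`. -/
def OnLine (a : Fin 3 → ℂ) (p : Plane) : Prop := ∑ i, a i * p.rep i = 0

/-- `Z`: three lines `lin (ℓ i) = 0` without a common point, `10`, `7`, `4` points on the first,
second, third line, none of them on two lines, and a point `P` on none of the lines. -/
structure Config where
  ℓ : Fin 3 → Fin 3 → ℂ
  indep : LinearIndependent ℂ ℓ
  Z : Fin 3 → Finset Plane
  card : ∀ i, (Z i).card = ![10, 7, 4] i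
  mem : ∀ i, ∀ p ∈ Z i, ∀ j, OnLine (ℓ j) p ↔ j = i
  P : Plane
  hP : ∀ j, ¬ OnLine (ℓ j) P

/-- The set of `22` points of a configuration. -/
def Config.pts (C : Config) : Set Plane := insert C.P (⋃ i, (C.Z i : Set Plane))

/-- The ideal generated by all monomials `ℓ₀^{e₀} ℓ₁^{e₁} ℓ₂^{e₂}` in the linear forms `lin (ℓ i)`
with `w₀e₀ + w₁e₁ + w₂e₂ ≥ n`. -/
def wIdeal (ℓ : Fin 3 → Fin 3 → ℂ) (w : Fin 3 → ℕ) (n : ℕ) : Ideal S :=
  Ideal.span {g | ∃ e : Fin 3 → ℕ, n ≤ ∑ i, w i * e i ∧ g = ∏ i, lin (ℓ i) ^ e i}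

/-- The explicit ideal. -/
def Config.explicit (C : Config) (c : ℝ) : Ideal S :=
  wIdeal C.ℓ ![1, 1, 1] (⌊4 * c⌋₊ - 2) ⊓
  wIdeal C.ℓ ![7, 1, 1] (⌊10 * c⌋₊ - 8) ⊓
  wIdeal C.ℓ ![1, 5, 1] (⌊8 * c⌋₊ - 6) ⊓
  wIdeal C.ℓ ![1, 1, 3] (⌊6 * c⌋₊ - 4) ⊓
  wIdeal C.ℓ ![3, 5, 1] (⌊10 * c⌋₊ - 8) ⊓
  wIdeal C.ℓ ![5, 1, 3] (⌊10 * c⌋₊ - 8) ⊓
  wIdeal C.ℓ ![1, 3, 3] (⌊8 * c⌋₊ - 6) ⊓
  ⨅ p ∈ C.pts, idealOf {p} ^ (⌊c⌋₊ - 1)

end Pool.Agent.Helper61.MI
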