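import Pool.Agent.Helper61.MI.Coord

set_option autoImplicit false

/-! Module C: expansions in linear coordinates. -/

noncomputable section

namespace Pool.Agent.Helper61.MI

open MvPolynomial

lemma val_prod (v : AddValuation K (WithTop ℤ)) (ℓ : Fin 3 → Fin 3 → ℂ) (e : Fin 3 → ℕ) :
    v (algebraMap S K (∏ i, lin (ℓ i) ^ e i)) =
      ∑ i, e i • v (algebraMap S K (lin (ℓ i))) := by
  rw [Fin.prod_univ_three, Fin.sum_univ_three]
  simp only [map_mul, map_pow, AddValuation.map_mul, AddValuation.map_pow]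

lemma exists_le_of_sum (v : AddValuation K (WithTop ℤ)) {ι : Type} (s : Finset ι) (g : ι → K)
    (hs : s.Nonempty) : ∃ i ∈ s, v (g i) ≤ v (∑ i ∈ s, g i) := by
  by_contra hcon
  push Not at hcon
  obtain ⟨i, hi, hmin⟩ := s.exists_min_image (fun i => v (g i)) hs
  have h1 := hcon i hi
  have h2 : v (g i) ≤ v (∑ i ∈ s, g i) := v.map_le_sum fun j hj => hmin j hj
  exact absurd h1 (not_lt.2 h2)

theorem exists_exponent (v : AddValuation K (WithTop ℤ))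
    (hv : ∀ f : S, 0 ≤ v (algebraMap S K f)) (ℓ : Fin 3 → Fin 3 → ℂ)
    (hℓ : LinearIndependent ℂ ℓ) {ι : Type} (s : Finset ι) (w : ι → Fin 3 → ℕ) (n : ι → ℕ)
    (f : S) (hf0 : f ≠ 0) (hf : ∀ k ∈ s, f ∈ wIdeal ℓ (w k) (n k)) :
    ∃ e : Fin 3 → ℕ, (∀ k ∈ s, n k ≤ ∑ i, w k i * e i) ∧
      ∑ i, e i • v (algebraMap S K (lin (ℓ i))) ≤ v (algebraMap S K f) := by
  set g := (coord ℓ hℓ).symm f with hg
  have hg0 : g ≠ 0 := by
    intro h0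
    apply hf0
    have : (coord ℓ hℓ) g = f := by rw [hg, AlgEquiv.apply_symm_apply]
    rw [← this, h0, map_zero]
  have hne : g.support.Nonempty := by
    rwa [Finset.nonempty_iff_ne_empty, Ne, MvPolynomial.support_eq_empty]
  obtain ⟨e, he, hle⟩ := exists_le_of_sum v g.support
    (fun e => algebraMap S K (C (coeff e g) * ∏ i, lin (ℓ i) ^ e i)) hne
  refine ⟨e, fun k hk => (mem_wIdeal_iff ℓ hℓ _ _ _).1 (hf k hk) e he, ?_⟩
  rw [← map_sum, hg, ← eq_sum ℓ hℓ f] at hle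
  refine le_trans ?_ hle
  rw [← val_prod, map_mul, AddValuation.map_mul]
  have := hv (C (coeff e ((coord ℓ hℓ).symm f)))
  calc v (algebraMap S K (∏ i, lin (ℓ i) ^ e i))
      = 0 + v (algebraMap S K (∏ i, lin (ℓ i) ^ e i)) := (zero_add _).symm
    _ ≤ _ := by gcongr

lemma wIdeal_antitone (ℓ : Fin 3 → Fin 3 → ℂ) (w : Fin 3 → ℕ) {m n : ℕ} (h : m ≤ n) :
    wIdeal ℓ w n ≤ wIdeal ℓ w m := by
  unfold wIdeal
  apply Ideal.span_mono
  rintro g ⟨e, he, rfl⟩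
  exact ⟨e, h.trans he, rfl⟩

lemma wIdeal_mul (ℓ : Fin 3 → Fin 3 → ℂ) (w : Fin 3 → ℕ) (m n : ℕ) :
    wIdeal ℓ w m * wIdeal ℓ w n ≤ wIdeal ℓ w (m + n) := by
  unfold wIdeal
  rw [Ideal.span_mul_span']
  apply Ideal.span_mono
  rintro _ ⟨_, ⟨e, he, rfl⟩, _, ⟨e', he', rfl⟩, rfl⟩
  refine ⟨e + e', ?_, ?_⟩
  · simp only [Pi.add_apply, mul_add, Finset.sum_add_distrib]
    omega
  · simp only [Pi.add_apply, pow_add, Finset.prod_mul_distrib]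

lemma wIdeal_zero (ℓ : Fin 3 → Fin 3 → ℂ) (w : Fin 3 → ℕ) : wIdeal ℓ w 0 = ⊤ := by
  rw [Ideal.eq_top_iff_one]
  exact Ideal.subset_span ⟨0, by simp, by simp⟩

lemma pow_mem_wIdeal (ℓ : Fin 3 → Fin 3 → ℂ) (w : Fin 3 → ℕ) (g : S) (m : ℕ)
    (hg : g ∈ wIdeal ℓ w m) (k : ℕ) : g ^ k ∈ wIdeal ℓ w (m * k) := by
  induction k with
  | zero => simp [wIdeal_zero]
  | succ k ih =>
    rw [pow_succ, Nat.mul_succ]
    exact wIdeal_mul ℓ w _ _ (Ideal.mul_mem_mul ih hg)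

theorem wIdeal_le_wIdeal (ℓ ℓ' : Fin 3 → Fin 3 → ℂ) (w w' : Fin 3 → ℕ) (n : ℕ)
    (h : ∀ i, lin (ℓ i) ∈ wIdeal ℓ' w' (w i)) : wIdeal ℓ w n ≤ wIdeal ℓ' w' n := by
  conv_lhs => unfold wIdeal
  rw [Ideal.span_le]
  rintro _ ⟨e, he, rfl⟩
  refine wIdeal_antitone ℓ' w' he ?_
  rw [Fin.prod_univ_three, Fin.sum_univ_three]
  exact wIdeal_mul _ _ _ _ (Ideal.mul_mem_mul (wIdeal_mul _ _ _ _ (Ideal.mul_mem_mul
    (pow_mem_wIdeal _ _ _ _ (h 0) _) (pow_mem_wIdeal _ _ _ _ (h 1) _)))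
    (pow_mem_wIdeal _ _ _ _ (h 2) _))

lemma lin_mem_wIdeal (ℓ : Fin 3 → Fin 3 → ℂ) (w : Fin 3 → ℕ) (i : Fin 3) :
    lin (ℓ i) ∈ wIdeal ℓ w (w i) := by
  refine Ideal.subset_span ⟨Pi.single i 1, ?_, ?_⟩
  · simp [Finset.sum_apply, Pi.single_apply]
  · rw [Finset.prod_eq_single i]
    · simp
    · intro j _ hj
      simp [hj]
    · simp

/-- A weighted ideal with all weights `≤ 1`-ish: monomials of total degree. -/
lemma eval_lin (a x : Fin 3 → ℂ) : aeval x (lin a) = ∑ i, a i * x i := by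
  simp [lin]

end Pool.Agent.Helper61.MI
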