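import Pool.Agent.Helper61.MI.Suf

set_option autoImplicit false

/-! Sufficiency when the centre of the valuation is one of the points. -/

noncomputable section

namespace Pool.Agent.Helper61.MI

open MvPolynomial
open ElemMod (elem_generic elem_line elem_P)

lemma suf_coords (I : Ideal S) (c : ℝ) (hc : 0 < c) (v : AddValuation K (WithTop ℤ))
    (hv : IsDivisorial v) (t : ℕ) (p : Plane) (s : Fin 3 → Fin 3 → ℂ)
    (hs : LinearIndependent ℂ s) (h0 : OnLine (s 0) p) (h1 : OnLine (s 1) p) (a b : ℕ)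
    (ha : 0 < a) (hb : 0 < b)
    (va : V v (lin (s 0)) = (((t + a : ℕ) : ℤ) : WithTop ℤ))
    (vb : V v (lin (s 1)) = (((t + b : ℕ) : ℤ) : WithTop ℤ))
    (vm : V v (lin (s 2)) = (((t : ℕ) : ℤ) : WithTop ℤ))
    (μ : ℕ) (hμ : 4 ≤ μ)
    (hg : ∃ g ∈ I, V v g ≤ (((4 * t + a : ℕ) : ℤ) : WithTop ℤ))
    (hg' : b < a → ∃ g ∈ I, V v g ≤ (((μ * t + b : ℕ) : ℤ) : WithTop ℤ))
    (f : S) (f1 : f ∈ wIdeal s ![1, 1, 1] (⌊4 * c⌋₊ - 2))
    (f2 : f ∈ wIdeal s ![μ - 3, 1, 1] (⌊(μ : ℝ) * c⌋₊ - (μ - 2)))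
    (f3 : f ∈ idealOf {p} ^ (⌊c⌋₊ - 1)) :
    (c : EReal) * ordI v I < toE (v (algebraMap S K f)) + logDisc v := by
  have hn : ∀ i, v (algebraMap S K (lin (s i))) =
      (((![t + a, t + b, t] : Fin 3 → ℕ) i : ℤ) : WithTop ℤ) := by
    intro i
    fin_cases i
    · exact va
    · exact vb
    · exact vm
  have hL := le_logDisc v hv s hs _ hn
  obtain ⟨g1, hg1, v1⟩ := hg
  by_cases hf0 : f = 0
  · obtain ⟨k, hk⟩ : ∃ k : ℕ, c * ((4 * t + a : ℕ) : ℝ) < k := exists_nat_gt _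
    refine suf_aux _ c hc v f g1 hg1 _ v1 0 k ?_ ?_ (by push_cast at hk ⊢; linarith)
    · exact le_trans (by norm_num) (one_le_logDisc v hv)
    · rw [hf0]; simp [V]
  rw [idealOf_singleton_pow p s hs h0 h1] at f3
  obtain ⟨e, he, hle⟩ := exists_exponent v hv.1 s hs (Finset.univ : Finset (Fin 3))
    ![![1, 1, 1], ![μ - 3, 1, 1], ![1, 1, 0]]
    ![⌊4 * c⌋₊ - 2, ⌊(μ : ℝ) * c⌋₊ - (μ - 2), ⌊c⌋₊ - 1] f hf0 (by
      intro k _
      fin_cases k
      · exact f1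
      · exact f2
      · exact f3)
  have he' := fun k => he k (Finset.mem_univ k)
  rw [sum_nsmul_coe e _ s v hn] at hle
  have q1 := he' 0
  have q2 := he' 1
  have q3 := he' 2
  simp [Fin.sum_univ_three] at q1 q2 q3
  obtain ⟨ν, rfl⟩ : ∃ ν, μ = ν + 4 := ⟨μ - 4, by omega⟩
  have r1 := lt_of_floor 4 c (by norm_num) hc 2 (e 0 + e 1 + e 2) (by omega)
  have r2 := lt_of_floor ((ν + 4 : ℕ) : ℝ) c (by positivity) hc (ν + 2)
    ((ν + 1) * e 0 + e 1 + e 2) (by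
      have h5 : ν + 4 - 3 = ν + 1 := by omega
      rw [h5] at q2
      push_cast at q2 ⊢
      omega)
  have r3 := lt_of_floor 1 c (by norm_num) hc 1 (e 0 + e 1) (by rw [one_mul]; omega)
  push_cast at r1 r2 r3
  have hnum := num_point c hc (ν + 4) (by omega) t a b ha hb e (by linarith)
    (by push_cast; nlinarith) (by linarith)
  have hfin : ∀ (g : S) (m : ℕ), g ∈ I → V v g ≤ ((m : ℤ) : WithTop ℤ) →
      (m : ℝ) ≤ min (4 * t + a : ℝ) (((ν + 4 : ℕ) : ℝ) * t + b) →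
      (c : EReal) * ordI v I < toE (v (algebraMap S K f)) + logDisc v := by
    intro g m hg hgm hm
    refine suf_aux _ c hc v f g hg m hgm _ _ hL hle ?_
    have := mul_le_mul_of_nonneg_left hm hc.le
    simp only [Matrix.cons_val_zero, Matrix.cons_val_one, Matrix.cons_val]
    push_cast at this hnum ⊢
    nlinarith
  rcases lt_or_ge b a with hba | hba
  · obtain ⟨g2, hg2, v2⟩ := hg' hba
    rcases min_choice (4 * t + a : ℝ) (((ν + 4 : ℕ) : ℝ) * t + b) with h | h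
    · exact hfin g1 _ hg1 v1 (by rw [h]; push_cast; rfl)
    · exact hfin g2 _ hg2 v2 (by rw [h]; push_cast; rfl)
  · refine hfin g1 _ hg1 v1 ?_
    have hba' : (a : ℝ) ≤ b := by exact_mod_cast hba
    have ht0 : (0 : ℝ) ≤ t := Nat.cast_nonneg t
    have hν0 : (0 : ℝ) ≤ ν := Nat.cast_nonneg ν
    refine le_min (by push_cast; rfl) ?_
    push_cast
    nlinarith [mul_nonneg hν0 ht0]

lemma wIdeal_change (ℓ s : Fin 3 → Fin 3 → ℂ) (hs : LinearIndependent ℂ s) (w : Fin 3 → ℕ)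
    (i : Fin 3) (hi : s 0 = ℓ i) (ω n : ℕ) (hω : 1 ≤ ω) (h1 : w i = ω) (h2 : ∀ j, j ≠ i → w j = 1) :
    wIdeal ℓ w n ≤ wIdeal s ![ω, 1, 1] n := by
  apply wIdeal_le_wIdeal
  intro j
  by_cases hj : j = i
  · subst hj
    rw [h1, ← hi]
    exact lin_mem_wIdeal s ![ω, 1, 1] 0
  · rw [h2 j hj]
    apply lin_mem_span s hs
    intro k
    fin_cases k <;> simp [hω]

/-- Excess values of the two coordinates through the centre. -/
lemma exists_excess (v : AddValuation K (WithTop ℤ)) (hv : IsDivisorial v) (t : ℕ)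
    (s : Fin 3 → ℂ) (hs : s ≠ 0) (h : ((t : ℤ) : WithTop ℤ) < V v (lin s)) :
    ∃ a : ℕ, 0 < a ∧ V v (lin s) = (((t + a : ℕ) : ℤ) : WithTop ℤ) := by
  obtain ⟨k, hk⟩ := V_nat hv.1 (lin_ne_zero hs)
  rw [hk] at h
  have h2 : t < k := by
    have := WithTop.coe_lt_coe.1 h
    exact_mod_cast this
  exact ⟨k - t, by omega, by rw [hk, Nat.add_sub_cancel' h2.le]⟩

theorem suf_line (C : Config) (c : ℝ) (hc : 0 < c) (v : AddValuation K (WithTop ℤ))
    (hv : IsDivisorial v) (t : ℕ)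
    (ht : ∀ i, ((t : ℤ) : WithTop ℤ) ≤ V v (X i)) (ht' : ∃ i, V v (X i) = ((t : ℤ) : WithTop ℤ))
    (i : Fin 3) (z : Plane) (hz : z ∈ C.Z i)
    (hcen : ∀ s, OnLine s z → ((t : ℤ) : WithTop ℤ) < V v (lin s))
    (f : S) (hf : f ∈ C.explicit c) :
    (c : EReal) * ordI v (idealOf C.pts) < toE (v (algebraMap S K f)) + logDisc v := by
  have h0 : OnLine (C.ℓ i) z := (C.mem i z hz i).2 rfl
  obtain ⟨s₁, m, h1, hm, hind⟩ := exists_through z (C.ℓ i) (C.indep.ne_zero i) h0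
  have hs1 : s₁ ≠ 0 := hind.ne_zero 1
  obtain ⟨a, ha, va⟩ := exists_excess v hv t _ (C.indep.ne_zero i) (hcen _ h0)
  obtain ⟨b, hb, vb⟩ := exists_excess v hv t _ hs1 (hcen _ h1)
  have hnot := eq_of_not_through hv.1 t ht ht' z hcen
  obtain ⟨hg, hg'⟩ := elem_line C v hv.1 t ht i z hz hnot a b va s₁ h1 vb
  simp only [Config.explicit, Ideal.mem_inf, Submodule.mem_iInf] at hf
  obtain ⟨⟨⟨⟨⟨⟨⟨f1, f2⟩, f3⟩, f4⟩, _⟩, _⟩, _⟩, fp⟩ := hf
  have hzp : z ∈ C.pts := by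
    right
    exact Set.mem_iUnion.2 ⟨i, hz⟩
  have hchange := wIdeal_change C.ℓ ![C.ℓ i, s₁, m] hind
  refine suf_coords _ c hc v hv t z ![C.ℓ i, s₁, m] hind h0 h1 a b ha hb va vb (hnot m hm)
    (![10, 8, 6] i) (by fin_cases i <;> simp) hg hg' f ?_ ?_ (fp z hzp)
  · exact hchange ![1, 1, 1] i rfl 1 _ le_rfl (by fin_cases i <;> rfl) (by
      intro j _; fin_cases j <;> rfl) f1
  · fin_cases i
    · exact hchange ![7, 1, 1] 0 rfl 7 _ (by norm_num) rfl (by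
        intro j hj
        fin_cases j
        · exact absurd rfl hj
        · rfl
        · rfl) (by simpa using f2)
    · exact hchange ![1, 5, 1] 1 rfl 5 _ (by norm_num) rfl (by
        intro j hj
        fin_cases j
        · rfl
        · exact absurd rfl hj
        · rfl) (by simpa using f3)
    · exact hchange ![1, 1, 3] 2 rfl 3 _ (by norm_num) rfl (by
        intro j hj
        fin_cases j
        · rfl
        · rfl
        · exact absurd rfl hj) (by simpa using f4)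

theorem suf_P (C : Config) (c : ℝ) (hc : 0 < c) (v : AddValuation K (WithTop ℤ))
    (hv : IsDivisorial v) (t : ℕ)
    (ht : ∀ i, ((t : ℤ) : WithTop ℤ) ≤ V v (X i)) (ht' : ∃ i, V v (X i) = ((t : ℤ) : WithTop ℤ))
    (hcen : ∀ s, OnLine s C.P → ((t : ℤ) : WithTop ℤ) < V v (lin s))
    (f : S) (hf : f ∈ C.explicit c) :
    (c : EReal) * ordI v (idealOf C.pts) < toE (v (algebraMap S K f)) + logDisc v := by
  obtain ⟨s₀, hs₀, h0⟩ : ∃ s₀ : Fin 3 → ℂ, s₀ ≠ 0 ∧ OnLine s₀ C.P := by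
    by_cases h : C.P.rep 0 = 0
    · refine ⟨Pi.single 0 1, by simp, ?_⟩
      simp [OnLine, Pi.single_apply, h]
    · refine ⟨![C.P.rep 1, -C.P.rep 0, 0], ?_, ?_⟩
      · intro h'
        apply h
        have := congrFun h' 1
        simpa using this
      · simp [OnLine, Fin.sum_univ_three]
        ring
  obtain ⟨s₁, m, h1, hm, hind⟩ := exists_through C.P s₀ hs₀ h0
  have hs1 : s₁ ≠ 0 := hind.ne_zero 1
  obtain ⟨a, ha, va⟩ := exists_excess v hv t _ hs₀ (hcen _ h0)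
  obtain ⟨b, hb, vb⟩ := exists_excess v hv t _ hs1 (hcen _ h1)
  have hnot := eq_of_not_through hv.1 t ht ht' C.P hcen
  simp only [Config.explicit, Ideal.mem_inf, Submodule.mem_iInf] at hf
  obtain ⟨⟨⟨⟨⟨⟨⟨f1, _⟩, _⟩, _⟩, _⟩, _⟩, _⟩, fp⟩ := hf
  have hzp : C.P ∈ C.pts := Set.mem_insert _ _
  have f1' : f ∈ wIdeal ![s₀, s₁, m] ![1, 1, 1] (⌊4 * c⌋₊ - 2) := by
    refine wIdeal_le_wIdeal _ _ _ _ _ ?_ f1
    intro j
    have : (![1, 1, 1] : Fin 3 → ℕ) j = 1 := by fin_cases j <;> rfl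
    rw [this]
    exact lin_mem_span _ hind _ (by intro k; fin_cases k <;> simp) _
  refine suf_coords _ c hc v hv t C.P ![s₀, s₁, m] hind h0 h1 a b ha hb va vb (hnot m hm)
    4 le_rfl ?_ ?_ f f1' (by simpa using f1') (fp _ hzp)
  · exact elem_P C v t hnot a s₀ h0 va
  · intro _
    exact elem_P C v t hnot b s₁ h1 vb

theorem explicit_subset (C : Config) (c : ℝ) (hc : 0 < c) :
    (C.explicit c : Set S) ⊆ multiplier (idealOf C.pts) c := by
  intro f hf v hv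
  obtain ⟨t, ht, ht'⟩ := exists_t hv.1
  by_cases hcen : ∀ p ∈ C.pts, ∃ s : Fin 3 → ℂ, OnLine s p ∧
      V v (lin s) = ((t : ℤ) : WithTop ℤ)
  · exact suf_generic C c hc v hv t ht ht' hcen f hf
  · push Not at hcen
    obtain ⟨p, hp, hall⟩ := hcen
    have hall' : ∀ s, OnLine s p → ((t : ℤ) : WithTop ℤ) < V v (lin s) := fun s hs =>
      lt_of_le_of_ne (le_lin hv.1 t ht s) (Ne.symm (hall s hs))
    rcases hp with rfl | hp
    · exact suf_P C c hc v hv t ht ht' hall' f hf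
    · obtain ⟨i, hi⟩ := Set.mem_iUnion.1 hp
      exact suf_line C c hc v hv t ht ht' i p hi hall' f hf

end Pool.Agent.Helper61.MI
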