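import Pool.Agent.Helper61.MI.Nec
import Pool.Agent.Helper61.MI.SufPoint

set_option autoImplicit false

/-! The formula for the multiplier ideals and the jumping numbers. -/

noncomputable section

namespace Pool.Agent.Helper61.MI

open MvPolynomial

theorem multiplier_eq (C : Config) (c : ℝ) (hc : 0 < c) :
    multiplier (idealOf C.pts) c = (C.explicit c : Set S) :=
  Set.Subset.antisymm (multiplier_subset C c hc) (explicit_subset C c hc)

lemma mem_explicit (C : Config) (c : ℝ) (f : S) : f ∈ C.explicit c ↔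
    f ∈ wIdeal C.ℓ ![1, 1, 1] (⌊4 * c⌋₊ - 2) ∧ f ∈ wIdeal C.ℓ ![7, 1, 1] (⌊10 * c⌋₊ - 8) ∧
    f ∈ wIdeal C.ℓ ![1, 5, 1] (⌊8 * c⌋₊ - 6) ∧ f ∈ wIdeal C.ℓ ![1, 1, 3] (⌊6 * c⌋₊ - 4) ∧
    f ∈ wIdeal C.ℓ ![3, 5, 1] (⌊10 * c⌋₊ - 8) ∧ f ∈ wIdeal C.ℓ ![5, 1, 3] (⌊10 * c⌋₊ - 8) ∧
    f ∈ wIdeal C.ℓ ![1, 3, 3] (⌊8 * c⌋₊ - 6) ∧ ∀ p ∈ C.pts, f ∈ idealOf {p} ^ (⌊c⌋₊ - 1) := by
  simp only [Config.explicit, Ideal.mem_inf, Submodule.mem_iInf, and_assoc]

/-! ### Values on the linear forms -/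

lemma support_symm_lin (C : Config) (κ : Fin 3 → ℂ) (i : Fin 3) (h : κ i ≠ 0) :
    Finsupp.single i 1 ∈ ((coord C.ℓ C.indep).symm
      (lin (κ 0 • C.ℓ 0 + κ 1 • C.ℓ 1 + κ 2 • C.ℓ 2))).support := by
  have h1 : (coord C.ℓ C.indep).symm (lin (κ 0 • C.ℓ 0 + κ 1 • C.ℓ 1 + κ 2 • C.ℓ 2)) = lin κ := by
    rw [AlgEquiv.symm_apply_eq]
    have h2 : coord C.ℓ C.indep (lin κ) = subst C.ℓ (lin κ) := rfl
    rw [h2, subst_lin]
    congr 1
    funext k
    simp [Fin.sum_univ_three]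
  rw [h1, mem_support_iff, coeff_lin]
  exact h

/-- The value of a linear form whose coefficient at a coordinate of weight `1` is non-zero. -/
lemma value_lin (C : Config) (v : AddValuation K (WithTop ℤ)) (w : Fin 3 → ℕ)
    (hmem : ∀ (f : S) (n : ℕ), ((n : ℤ) : WithTop ℤ) ≤ v (algebraMap S K f) ↔
      f ∈ wIdeal C.ℓ w n) (hv : ∀ f : S, 0 ≤ V v f)
    (κ : Fin 3 → ℂ) (i : Fin 3) (h : κ i ≠ 0) (hmin : ∀ j, κ j ≠ 0 → w i ≤ w j) :
    V v (lin (κ 0 • C.ℓ 0 + κ 1 • C.ℓ 1 + κ 2 • C.ℓ 2)) = ((w i : ℤ) : WithTop ℤ) := by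
  set a := κ 0 • C.ℓ 0 + κ 1 • C.ℓ 1 + κ 2 • C.ℓ 2 with ha
  have hs := support_symm_lin C κ i h
  have hne : lin a ≠ 0 := by
    intro h0
    rw [← ha, h0, map_zero] at hs
    simp at hs
  obtain ⟨k, hk⟩ := V_nat hv hne
  have h1 : k ≤ w i := by
    have h2 := (hmem (lin a) k).1 (by rw [← hk])
    rw [mem_wIdeal_iff C.ℓ C.indep] at h2
    have h3 := h2 _ hs
    rw [Finset.sum_eq_single i] at h3
    · simpa using h3
    · intro j _ hj
      simp [Finsupp.single_apply, Ne.symm hj]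
    · simp
  have h4 : w i ≤ k := by
    have h5 : lin a ∈ wIdeal C.ℓ w (w i) := by
      rw [ha, lin_add, lin_add, lin_smul, lin_smul, lin_smul]
      have h6 : ∀ j, MvPolynomial.C (κ j) * lin (C.ℓ j) ∈ wIdeal C.ℓ w (w i) := by
        intro j
        by_cases hj : κ j = 0
        · simp [hj]
        · exact Ideal.mul_mem_left _ _ (wIdeal_antitone _ _ (hmin j hj) (lin_mem_wIdeal _ _ j))
      exact add_mem (add_mem (h6 0) (h6 1)) (h6 2)
    have h7 := (hmem _ _).2 h5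
    have h8 : (((w i : ℕ) : ℤ) : WithTop ℤ) ≤ ((k : ℤ) : WithTop ℤ) := hk ▸ h7
    have h9 := WithTop.coe_le_coe.1 h8
    exact_mod_cast h9
  rw [hk, le_antisymm h1 h4]

lemma value_coord (C : Config) (v : AddValuation K (WithTop ℤ)) (w : Fin 3 → ℕ)
    (hmem : ∀ (f : S) (n : ℕ), ((n : ℤ) : WithTop ℤ) ≤ v (algebraMap S K f) ↔
      f ∈ wIdeal C.ℓ w n) (hv : ∀ f : S, 0 ≤ V v f) (i : Fin 3) :
    V v (lin (C.ℓ i)) = ((w i : ℤ) : WithTop ℤ) := by
  have h := value_lin C v w hmem hv (Pi.single i 1) i (by simp) (by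
    intro j hj
    by_cases hji : j = i
    · rw [hji]
    · exact absurd (by simp [hji]) hj)
  rw [← h]
  congr 1
  fin_cases i <;> simp

/-- The linear form `ℓⱼ(P) ℓᵢ - ℓᵢ(P) ℓⱼ` through `P`. -/
def mform (C : Config) (i j : Fin 3) : Fin 3 → ℂ :=
  (∑ k, C.ℓ j k * C.P.rep k) • C.ℓ i - (∑ k, C.ℓ i k * C.P.rep k) • C.ℓ j

lemma mform_on (C : Config) (i j : Fin 3) : OnLine (mform C i j) C.P := by
  unfold OnLine mform
  simp only [Pi.sub_apply, Pi.smul_apply, smul_eq_mul, sub_mul, Finset.sum_sub_distrib, mul_assoc,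
    ← Finset.mul_sum]
  ring

lemma value_mform (C : Config) (v : AddValuation K (WithTop ℤ)) (w : Fin 3 → ℕ)
    (hmem : ∀ (f : S) (n : ℕ), ((n : ℤ) : WithTop ℤ) ≤ v (algebraMap S K f) ↔
      f ∈ wIdeal C.ℓ w n) (hv : ∀ f : S, 0 ≤ V v f) (i j : Fin 3) (hij : i ≠ j)
    (hi : w i = 1) (hj : w j = 1) :
    V v (lin (mform C i j)) = ((1 : ℤ) : WithTop ℤ) := by
  have hPj : (∑ k, C.ℓ j k * C.P.rep k) ≠ 0 := C.hP j
  set x := ∑ k, C.ℓ j k * C.P.rep k with hx
  set y := ∑ k, C.ℓ i k * C.P.rep k with hy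
  have h := value_lin C v w hmem hv (Pi.single i x - Pi.single j y) i (by
      simp [Pi.single_apply, hij, hPj]) (by
    intro k hk
    have : k = i ∨ k = j := by
      by_contra hcon
      push Not at hcon
      apply hk
      simp [Pi.single_apply, hcon.1, hcon.2]
    rcases this with rfl | rfl
    · exact le_rfl
    · rw [hi, hj])
  rw [hi] at h
  rw [← Nat.cast_one (R := ℤ), ← h]
  congr 2
  unfold mform
  rw [← hx, ← hy]
  fin_cases i <;> fin_cases j <;> simp_all [Pi.single_apply] <;> abel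

/-- The element `ℓ₀ ℓ₁ ℓ₂ m` of `I(Z)`. -/
def gel (C : Config) (i j : Fin 3) : S :=
  lin (C.ℓ 0) * lin (C.ℓ 1) * lin (C.ℓ 2) * lin (mform C i j)

lemma aeval_smul_lin (a : Fin 3 → ℂ) (p : Plane) (h : OnLine a p) (t : ℂ) :
    aeval (t • p.rep) (lin a) = 0 := by
  rw [eval_lin]
  unfold OnLine at h
  have : ∑ i, a i * (t • p.rep) i = t * ∑ i, a i * p.rep i := by
    rw [Finset.mul_sum]
    refine Finset.sum_congr rfl fun j _ => ?_
    simp only [Pi.smul_apply, smul_eq_mul]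
    ring
  rw [this, h, mul_zero]

lemma gel_mem (C : Config) (i j : Fin 3) : gel C i j ∈ idealOf C.pts := by
  rw [mem_idealOf]
  intro p hp t
  unfold gel
  rw [map_mul, map_mul, map_mul]
  rcases hp with rfl | hp
  · rw [aeval_smul_lin _ _ (mform_on C i j)]; ring
  · obtain ⟨k, hk⟩ := Set.mem_iUnion.1 hp
    have h1 := (C.mem k p hk k).2 rfl
    have h2 := aeval_smul_lin _ _ h1 t
    fin_cases k
    · simp only [Fin.zero_eta] at h2; rw [h2]; ring
    · simp only [Fin.mk_one] at h2; rw [h2]; ring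
    · simp only [Fin.reduceFinMk] at h2; rw [h2]; ring

lemma gel_mem_wIdeal (C : Config) (i j : Fin 3) (w : Fin 3 → ℕ) (hw : ∀ k, 1 ≤ w k) :
    gel C i j ∈ wIdeal C.ℓ w (w 0 + w 1 + w 2 + 1) := by
  unfold gel
  refine wIdeal_mul _ _ _ _ (Ideal.mul_mem_mul (wIdeal_mul _ _ _ _ (Ideal.mul_mem_mul
    (wIdeal_mul _ _ _ _ (Ideal.mul_mem_mul (lin_mem_wIdeal _ _ 0) (lin_mem_wIdeal _ _ 1)))
    (lin_mem_wIdeal _ _ 2))) (lin_mem_span C.ℓ C.indep w hw _))

/-- The witness `ℓ^e (ℓ₀ ℓ₁ ℓ₂ m)^k`. -/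
def wit (C : Config) (i j : Fin 3) (e : Fin 3 → ℕ) (k : ℕ) : S :=
  (∏ l, lin (C.ℓ l) ^ e l) * gel C i j ^ k

lemma wit_mem (C : Config) (i j : Fin 3) (e : Fin 3 → ℕ) (k : ℕ) (w : Fin 3 → ℕ)
    (hw : ∀ l, 1 ≤ w l) (n : ℕ)
    (hn : n ≤ w 0 * e 0 + w 1 * e 1 + w 2 * e 2 + (w 0 + w 1 + w 2 + 1) * k) :
    wit C i j e k ∈ wIdeal C.ℓ w n := by
  refine wIdeal_antitone _ _ hn (wIdeal_mul _ _ _ _ (Ideal.mul_mem_mul ?_
    (pow_mem_wIdeal _ _ _ _ (gel_mem_wIdeal C i j w hw) k)))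
  exact Ideal.subset_span ⟨e, by rw [Fin.sum_univ_three], rfl⟩

lemma wit_value (C : Config) (i j : Fin 3) (e : Fin 3 → ℕ) (k : ℕ) (w : Fin 3 → ℕ)
    (hij : i ≠ j) (hi : w i = 1) (hj : w j = 1) (n : ℕ)
    (hn : w 0 * e 0 + w 1 * e 1 + w 2 * e 2 + (w 0 + w 1 + w 2 + 1) * k < n) :
    wit C i j e k ∉ wIdeal C.ℓ w n := by
  obtain ⟨v, hv, _, hmem⟩ := exists_monVal C.ℓ C.indep w i hi
  intro hcon
  have h1 := (hmem _ _).2 hcon
  have hc := value_coord C v w hmem hv.1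
  have hm := value_mform C v w hmem hv.1 i j hij hi hj
  have h2 : V v (wit C i j e k) = (((w 0 * e 0 + w 1 * e 1 + w 2 * e 2 +
      (w 0 + w 1 + w 2 + 1) * k : ℕ) : ℤ) : WithTop ℤ) := by
    unfold wit
    rw [V_mul]
    have h3 : V v (∏ l, lin (C.ℓ l) ^ e l) =
        (((w 0 * e 0 + w 1 * e 1 + w 2 * e 2 : ℕ) : ℤ) : WithTop ℤ) := by
      rw [V, val_prod, sum_nsmul_coe e w C.ℓ v hc]
      simp only [mul_comm]
    have h4 : V v (gel C i j) = (((w 0 + w 1 + w 2 + 1 : ℕ) : ℤ) : WithTop ℤ) := by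
      unfold gel
      rw [V_mul, V_mul, V_mul, hc, hc, hc, hm]
      norm_cast
    have h5 : V v (gel C i j ^ k) = (((k * (w 0 + w 1 + w 2 + 1) : ℕ) : ℤ) : WithTop ℤ) := by
      rw [V, map_pow, AddValuation.map_pow]
      change k • V v (gel C i j) = _
      rw [h4, nsmul_coe]
    rw [h3, h5, mul_comm k]
    norm_cast
  have h6 : ((n : ℤ) : WithTop ℤ) ≤ V v (wit C i j e k) := h1
  rw [h2] at h6
  have h7 := WithTop.coe_le_coe.1 h6
  have h8 : n ≤ w 0 * e 0 + w 1 * e 1 + w 2 * e 2 + (w 0 + w 1 + w 2 + 1) * k := by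
    exact_mod_cast h7
  omega

lemma wit_point (C : Config) (i j : Fin 3) (e : Fin 3 → ℕ) (k : ℕ) (p : Plane) (hp : p ∈ C.pts)
    (n : ℕ) (hn : n ≤ k) : wit C i j e k ∈ idealOf {p} ^ n := by
  unfold wit
  apply Ideal.mul_mem_left
  apply Ideal.pow_le_pow_right hn
  exact Ideal.pow_mem_pow (idealOf_anti (Set.singleton_subset_iff.2 hp) (gel_mem C i j)) k

/-- Membership of the witness in the explicit ideal. -/
lemma wit_mem_explicit (C : Config) (i j : Fin 3) (e : Fin 3 → ℕ) (k : ℕ) (c c' : ℝ)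
    (hc' : 0 < c') (hlt : c' < c) (hk : ⌊c⌋₊ = k + 1)
    (h1 : 4 * c ≤ e 0 + e 1 + e 2 + 3 + 4 * k)
    (h2 : 10 * c ≤ 7 * e 0 + e 1 + e 2 + 9 + 10 * k)
    (h3 : 8 * c ≤ e 0 + 5 * e 1 + e 2 + 7 + 8 * k)
    (h4 : 6 * c ≤ e 0 + e 1 + 3 * e 2 + 5 + 6 * k)
    (h5 : 10 * c ≤ 3 * e 0 + 5 * e 1 + e 2 + 9 + 10 * k)
    (h6 : 10 * c ≤ 5 * e 0 + e 1 + 3 * e 2 + 9 + 10 * k)
    (h7 : 8 * c ≤ e 0 + 3 * e 1 + 3 * e 2 + 7 + 8 * k) :
    wit C i j e k ∈ C.explicit c' := by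
  have key : ∀ (W : ℝ) (M : ℕ), 0 < W → W * c ≤ M → ⌊W * c'⌋₊ < M := by
    intro W M hW hM
    rw [Nat.floor_lt (by positivity)]
    exact lt_of_lt_of_le (mul_lt_mul_of_pos_left hlt hW) hM
  rw [mem_explicit]
  refine ⟨?_, ?_, ?_, ?_, ?_, ?_, ?_, ?_⟩
  · refine wit_mem C i j e k _ (by intro l; fin_cases l <;> simp) _ ?_
    have := key 4 (e 0 + e 1 + e 2 + 3 + 4 * k) (by norm_num) (by push_cast; linarith)
    simp only [Matrix.cons_val_zero, Matrix.cons_val_one, Matrix.cons_val]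
    omega
  · refine wit_mem C i j e k _ (by intro l; fin_cases l <;> simp) _ ?_
    have := key 10 (7 * e 0 + e 1 + e 2 + 9 + 10 * k) (by norm_num) (by push_cast; linarith)
    simp only [Matrix.cons_val_zero, Matrix.cons_val_one, Matrix.cons_val]
    omega
  · refine wit_mem C i j e k _ (by intro l; fin_cases l <;> simp) _ ?_
    have := key 8 (e 0 + 5 * e 1 + e 2 + 7 + 8 * k) (by norm_num) (by push_cast; linarith)
    simp only [Matrix.cons_val_zero, Matrix.cons_val_one, Matrix.cons_val]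
    omega
  · refine wit_mem C i j e k _ (by intro l; fin_cases l <;> simp) _ ?_
    have := key 6 (e 0 + e 1 + 3 * e 2 + 5 + 6 * k) (by norm_num) (by push_cast; linarith)
    simp only [Matrix.cons_val_zero, Matrix.cons_val_one, Matrix.cons_val]
    omega
  · refine wit_mem C i j e k _ (by intro l; fin_cases l <;> simp) _ ?_
    have := key 10 (3 * e 0 + 5 * e 1 + e 2 + 9 + 10 * k) (by norm_num) (by push_cast; linarith)
    simp only [Matrix.cons_val_zero, Matrix.cons_val_one, Matrix.cons_val]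
    omega
  · refine wit_mem C i j e k _ (by intro l; fin_cases l <;> simp) _ ?_
    have := key 10 (5 * e 0 + e 1 + 3 * e 2 + 9 + 10 * k) (by norm_num) (by push_cast; linarith)
    simp only [Matrix.cons_val_zero, Matrix.cons_val_one, Matrix.cons_val]
    omega
  · refine wit_mem C i j e k _ (by intro l; fin_cases l <;> simp) _ ?_
    have := key 8 (e 0 + 3 * e 1 + 3 * e 2 + 7 + 8 * k) (by norm_num) (by push_cast; linarith)
    simp only [Matrix.cons_val_zero, Matrix.cons_val_one, Matrix.cons_val]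
    omega
  · intro p hp
    refine wit_point C i j e k p hp _ ?_
    have : ⌊c'⌋₊ ≤ ⌊c⌋₊ := Nat.floor_mono hlt.le
    omega

/-- `c ≥ 1` is a jumping number as soon as a witness exists. -/
lemma jumping_of_wit (C : Config) (i j : Fin 3) (e : Fin 3 → ℕ) (k : ℕ) (c : ℝ) (hc : 1 ≤ c)
    (hk : ⌊c⌋₊ = k + 1)
    (h1 : 4 * c ≤ e 0 + e 1 + e 2 + 3 + 4 * k)
    (h2 : 10 * c ≤ 7 * e 0 + e 1 + e 2 + 9 + 10 * k)
    (h3 : 8 * c ≤ e 0 + 5 * e 1 + e 2 + 7 + 8 * k)
    (h4 : 6 * c ≤ e 0 + e 1 + 3 * e 2 + 5 + 6 * k)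
    (h5 : 10 * c ≤ 3 * e 0 + 5 * e 1 + e 2 + 9 + 10 * k)
    (h6 : 10 * c ≤ 5 * e 0 + e 1 + 3 * e 2 + 9 + 10 * k)
    (h7 : 8 * c ≤ e 0 + 3 * e 1 + 3 * e 2 + 7 + 8 * k)
    (hnot : wit C i j e k ∉ C.explicit c) : IsJumpingNumber (idealOf C.pts) c := by
  refine ⟨by linarith, fun ε hε hεc heq => hnot ?_⟩
  rw [multiplier_eq C _ (by linarith), multiplier_eq C c (by linarith)] at heq
  have h := wit_mem_explicit C i j e k c (c - ε) (by linarith) (by linarith) hk h1 h2 h3 h4 h5 h6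
    h7
  have h' : wit C i j e k ∈ (C.explicit (c - ε) : Set S) := h
  rw [heq] at h'
  exact h'

lemma explicit_lt (C : Config) (c : ℝ) (hc : 0 < c) (h : c < 3 / 4) : C.explicit c = ⊤ := by
  rw [eq_top_iff]
  intro f _
  have key : ∀ (W : ℝ) (M : ℕ), 0 < W → W * (3 / 4) ≤ M → ⌊W * c⌋₊ < M := by
    intro W M hW hM
    rw [Nat.floor_lt (by positivity)]
    exact lt_of_lt_of_le (mul_lt_mul_of_pos_left h hW) hM
  have k1 := key 4 3 (by norm_num) (by norm_num)
  have k2 := key 10 8 (by norm_num) (by norm_num)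
  have k3 := key 8 6 (by norm_num) (by norm_num)
  have k4 := key 6 5 (by norm_num) (by norm_num)
  have k5 := key 1 1 (by norm_num) (by norm_num)
  rw [one_mul] at k5
  rw [mem_explicit, show ⌊4 * c⌋₊ - 2 = 0 by omega, show ⌊10 * c⌋₊ - 8 = 0 by omega,
    show ⌊8 * c⌋₊ - 6 = 0 by omega, show ⌊6 * c⌋₊ - 4 = 0 by omega, show ⌊c⌋₊ - 1 = 0 by omega]
  simp [wIdeal_zero]

lemma explicit_mid (C : Config) (c : ℝ) (hc : 3 / 4 ≤ c) (h : c < 1) :
    C.explicit c = wIdeal C.ℓ ![1, 1, 1] 1 := by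
  have key : ∀ (W : ℝ) (M : ℕ), 0 < W → W ≤ M → ⌊W * c⌋₊ < M := by
    intro W M hW hM
    rw [Nat.floor_lt (by positivity)]
    exact lt_of_lt_of_le (by nlinarith) hM
  have k1 := key 4 4 (by norm_num) (by norm_num)
  have k1' : 3 ≤ ⌊4 * c⌋₊ := by
    rw [Nat.le_floor_iff (by positivity)]
    push_cast
    linarith
  have k2 := key 10 10 (by norm_num) (by norm_num)
  have k3 := key 8 8 (by norm_num) (by norm_num)
  have k4 := key 6 6 (by norm_num) (by norm_num)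
  have k5 := key 1 1 (by norm_num) (by norm_num)
  rw [one_mul] at k5
  have hle : ∀ (w : Fin 3 → ℕ) (n : ℕ), (∀ l, 1 ≤ w l) → n ≤ 1 →
      wIdeal C.ℓ ![1, 1, 1] 1 ≤ wIdeal C.ℓ w n := by
    intro w n hw hn
    refine (wIdeal_le_wIdeal C.ℓ C.ℓ ![1, 1, 1] w 1 ?_).trans (wIdeal_antitone _ _ hn)
    intro l
    have : (![1, 1, 1] : Fin 3 → ℕ) l = 1 := by fin_cases l <;> rfl
    rw [this]
    exact lin_mem_span C.ℓ C.indep w hw _
  apply le_antisymm
  · intro f hf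
    have := ((mem_explicit C c f).1 hf).1
    rwa [show ⌊4 * c⌋₊ - 2 = 1 by omega] at this
  · intro f hf
    rw [mem_explicit]
    refine ⟨hle _ _ ?_ ?_ hf, hle _ _ ?_ ?_ hf, hle _ _ ?_ ?_ hf, hle _ _ ?_ ?_ hf,
      hle _ _ ?_ ?_ hf, hle _ _ ?_ ?_ hf, hle _ _ ?_ ?_ hf, ?_⟩
    any_goals (intro l; fin_cases l <;> simp)
    any_goals omega
    intro p _
    rw [show ⌊c⌋₊ - 1 = 0 by omega]
    simp

lemma floor_stable (W c : ℝ) (hW : 0 < W) (hc : 0 < c) (h : ∀ n : ℤ, W * c ≠ n) :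
    ∃ δ > 0, ∀ ε, 0 < ε → ε ≤ δ → ⌊W * (c - ε)⌋₊ = ⌊W * c⌋₊ := by
  have h0 : 0 < Int.fract (W * c) := by
    rw [Int.fract_pos]
    exact h _
  refine ⟨Int.fract (W * c) / W, div_pos h0 hW, fun ε hε hle => ?_⟩
  have h1 : W * ε ≤ Int.fract (W * c) := by
    rw [le_div_iff₀ hW] at hle
    linarith
  have h2 : 0 ≤ W * c := by positivity
  have h3 : (⌊W * c⌋ : ℝ) ≤ W * (c - ε) := by
    have := Int.self_sub_floor (W * c)
    linarith
  have h4 : (0 : ℝ) ≤ ⌊W * c⌋ := by exact_mod_cast Int.floor_nonneg.2 h2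
  rw [← Int.floor_toNat, ← Int.floor_toNat]
  congr 1
  rw [Int.floor_eq_iff]
  refine ⟨h3, ?_⟩
  have := Int.lt_floor_add_one (W * c)
  have h5 : W * (c - ε) < W * c := by nlinarith
  linarith

lemma not_jumping (C : Config) (c : ℝ) (hc : 1 ≤ c)
    (h : ¬ ∃ n : ℤ, 10 * c = n ∨ 8 * c = n ∨ 6 * c = n) : ¬ IsJumpingNumber (idealOf C.pts) c := by
  push Not at h
  have hc0 : 0 < c := by linarith
  obtain ⟨d1, p1, s1⟩ := floor_stable 10 c (by norm_num) hc0 (fun n => (h n).1)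
  obtain ⟨d2, p2, s2⟩ := floor_stable 8 c (by norm_num) hc0 (fun n => (h n).2.1)
  obtain ⟨d3, p3, s3⟩ := floor_stable 6 c (by norm_num) hc0 (fun n => (h n).2.2)
  obtain ⟨d4, p4, s4⟩ := floor_stable 4 c (by norm_num) hc0 (fun n hn => (h (2 * n)).2.1 (by
    push_cast; linarith))
  obtain ⟨d5, p5, s5⟩ := floor_stable 1 c (by norm_num) hc0 (fun n hn => (h (8 * n)).2.1 (by
    push_cast; linarith))
  rintro ⟨_, hj⟩
  set ε := min (min (min d1 d2) (min d3 d4)) (min d5 (c / 2)) with hε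
  have hpos : 0 < ε := by
    rw [hε]
    refine lt_min (lt_min (lt_min p1 p2) (lt_min p3 p4)) (lt_min p5 (by linarith))
  have e1 : ε ≤ d1 := (min_le_left _ _).trans ((min_le_left _ _).trans (min_le_left _ _))
  have e2 : ε ≤ d2 := (min_le_left _ _).trans ((min_le_left _ _).trans (min_le_right _ _))
  have e3 : ε ≤ d3 := (min_le_left _ _).trans ((min_le_right _ _).trans (min_le_left _ _))
  have e4 : ε ≤ d4 := (min_le_left _ _).trans ((min_le_right _ _).trans (min_le_right _ _))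
  have e5 : ε ≤ d5 := (min_le_right _ _).trans (min_le_left _ _)
  have e6 : ε ≤ c / 2 := (min_le_right _ _).trans (min_le_right _ _)
  apply hj ε hpos (by linarith)
  rw [multiplier_eq C _ (by linarith), multiplier_eq C c hc0]
  have s5' := s5 ε hpos e5
  rw [one_mul, one_mul] at s5'
  unfold Config.explicit
  rw [s1 ε hpos e1, s2 ε hpos e2, s3 ε hpos e3, s4 ε hpos e4, s5']

lemma coord_one_not_mem (C : Config) : (1 : S) ∉ wIdeal C.ℓ ![1, 1, 1] 1 := by
  rw [mem_wIdeal_iff C.ℓ C.indep, map_one]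
  intro h
  have := h 0 (by simp)
  simp at this

/-- The jumping numbers. -/
theorem jumping_iff (C : Config) (c : ℝ) :
    IsJumpingNumber (idealOf C.pts) c ↔
      c = 3 / 4 ∨ 1 ≤ c ∧ ∃ n : ℤ, 10 * c = n ∨ 8 * c = n ∨ 6 * c = n := by
  constructor
  · intro hj
    by_contra hcon
    push Not at hcon
    obtain ⟨hne, hrest⟩ := hcon
    rcases lt_trichotomy c (3 / 4) with h | h | h
    · have hc := hj.1
      apply hj.2 (c / 2) (by linarith) (by linarith)
      rw [multiplier_eq C _ (by linarith), multiplier_eq C c hc, explicit_lt C _ (by linarith)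
        (by linarith), explicit_lt C c hc h]
    · exact hne h
    · rcases lt_or_ge c 1 with h1 | h1
      · apply hj.2 (c - 3 / 4) (by linarith) (by linarith)
        rw [multiplier_eq C _ (by linarith), multiplier_eq C c (by linarith),
          explicit_mid C _ (by linarith) (by linarith), explicit_mid C c h.le h1]
      · refine not_jumping C c h1 ?_ hj
        rintro ⟨n, hn⟩
        have := hrest h1 n
        tauto
  · rintro (rfl | ⟨h1, n, hn⟩)
    · refine ⟨by norm_num, fun ε hε hεc heq => ?_⟩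
      rw [multiplier_eq C _ (by linarith), multiplier_eq C _ (by norm_num),
        explicit_lt C _ (by linarith) (by linarith), explicit_mid C _ le_rfl (by norm_num)] at heq
      have : (1 : S) ∈ ((⊤ : Ideal S) : Set S) := trivial
      rw [heq] at this
      exact coord_one_not_mem C this
    · set k := ⌊c⌋₊ - 1 with hk
      have hfl : 1 ≤ ⌊c⌋₊ := by
        rw [Nat.le_floor_iff (by linarith)]; simpa using h1
      have hk' : ⌊c⌋₊ = k + 1 := by omega
      have hk1 : (k : ℝ) + 1 ≤ c := by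
        have := Nat.floor_le (by linarith : 0 ≤ c)
        rw [hk'] at this
        exact_mod_cast this
      have hk2 : c < (k : ℝ) + 2 := by
        have := Nat.lt_floor_add_one c
        rw [hk'] at this
        push_cast at this
        linarith
      have hc0 : 0 < c := by linarith
      rcases hn with hn | hn | hn
      · -- 10 c integer
        obtain ⟨N, hN⟩ : ∃ N : ℕ, 10 * c = N + 9 + 10 * k := by
          refine ⟨(n - 9 - 10 * k).toNat, ?_⟩
          have h0 : (0 : ℝ) ≤ n - 9 - 10 * k := by rw [← hn]; linarith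
          have h0' : 0 ≤ n - 9 - 10 * k := by exact_mod_cast h0
          have h3 : (((n - 9 - 10 * k).toNat : ℤ) : ℝ) = ((n - 9 - 10 * k : ℤ) : ℝ) := by
            rw [Int.toNat_of_nonneg h0']
          push_cast at h3
          rw [h3, ← hn]; ring
        refine jumping_of_wit C 1 2 ![0, 0, N] k c h1 hk' ?_ ?_ ?_ ?_ ?_ ?_ ?_ ?_
        any_goals (simp only [Matrix.cons_val_zero, Matrix.cons_val_one, Matrix.cons_val,
          Nat.cast_zero]; linarith)
        intro hcon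
        refine wit_value C 1 2 ![0, 0, N] k ![7, 1, 1] (by decide) rfl rfl _ ?_
          ((mem_explicit C c _).1 hcon).2.1
        have hf : ⌊10 * c⌋₊ = N + 9 + 10 * k := by
          rw [hN]
          exact_mod_cast Nat.floor_natCast (R := ℝ) (N + 9 + 10 * k)
        rw [hf]
        simp only [Matrix.cons_val_zero, Matrix.cons_val_one, Matrix.cons_val]
        omega
      · -- 8 c integer
        obtain ⟨N, hN⟩ : ∃ N : ℕ, 8 * c = N + 7 + 8 * k := by
          refine ⟨(n - 7 - 8 * k).toNat, ?_⟩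
          have h0 : (0 : ℝ) ≤ n - 7 - 8 * k := by rw [← hn]; linarith
          have h0' : 0 ≤ n - 7 - 8 * k := by exact_mod_cast h0
          have h3 : (((n - 7 - 8 * k).toNat : ℤ) : ℝ) = ((n - 7 - 8 * k : ℤ) : ℝ) := by
            rw [Int.toNat_of_nonneg h0']
          push_cast at h3
          rw [h3, ← hn]; ring
        refine jumping_of_wit C 0 2 ![N, 0, 0] k c h1 hk' ?_ ?_ ?_ ?_ ?_ ?_ ?_ ?_
        any_goals (simp only [Matrix.cons_val_zero, Matrix.cons_val_one, Matrix.cons_val,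
          Nat.cast_zero]; linarith)
        intro hcon
        refine wit_value C 0 2 ![N, 0, 0] k ![1, 5, 1] (by decide) rfl rfl _ ?_
          ((mem_explicit C c _).1 hcon).2.2.1
        have hf : ⌊8 * c⌋₊ = N + 7 + 8 * k := by
          rw [hN]
          exact_mod_cast Nat.floor_natCast (R := ℝ) (N + 7 + 8 * k)
        rw [hf]
        simp only [Matrix.cons_val_zero, Matrix.cons_val_one, Matrix.cons_val]
        omega
      · -- 6 c integer
        obtain ⟨N, hN⟩ : ∃ N : ℕ, 6 * c = N + 6 + 6 * k := by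
          refine ⟨(n - 6 - 6 * k).toNat, ?_⟩
          have h0 : (0 : ℝ) ≤ n - 6 - 6 * k := by rw [← hn]; linarith
          have h0' : 0 ≤ n - 6 - 6 * k := by exact_mod_cast h0
          have h3 : (((n - 6 - 6 * k).toNat : ℤ) : ℝ) = ((n - 6 - 6 * k : ℤ) : ℝ) := by
            rw [Int.toNat_of_nonneg h0']
          push_cast at h3
          rw [h3, ← hn]; ring
        refine jumping_of_wit C 0 1 ![N, 1, 0] k c h1 hk' ?_ ?_ ?_ ?_ ?_ ?_ ?_ ?_
        any_goals (simp only [Matrix.cons_val_zero, Matrix.cons_val_one, Matrix.cons_val,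
          Nat.cast_zero, Nat.cast_one]; linarith)
        intro hcon
        refine wit_value C 0 1 ![N, 1, 0] k ![1, 1, 3] (by decide) rfl rfl _ ?_
          ((mem_explicit C c _).1 hcon).2.2.2.1
        have hf : ⌊6 * c⌋₊ = N + 6 + 6 * k := by
          rw [hN]
          exact_mod_cast Nat.floor_natCast (R := ℝ) (N + 6 + 6 * k)
        rw [hf]
        simp only [Matrix.cons_val_zero, Matrix.cons_val_one, Matrix.cons_val]
        omega

end Pool.Agent.Helper61.MI
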