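import Pool.Agent.Helper61.MI.Val
import Pool.Agent.Helper63.MI.Deriv
import Pool.Agent.Helper67.MI.MonVal
import Pool.Agent.Helper79.MI.Cont

set_option autoImplicit false

/-! Necessity: the multiplier ideal is contained in the explicit ideal. -/

noncomputable section

namespace Pool.Agent.Helper61.MI

open MvPolynomial

lemma nec_aux (I : Ideal S) (c : ℝ) (hc : 0 < c) (v : AddValuation K (WithTop ℤ))
    (hv : IsDivisorial v) (A W : ℕ) (hA : logDisc v ≤ ((A : ℝ) : EReal))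
    (hW : ∀ g ∈ I, ((W : ℤ) : WithTop ℤ) ≤ V v g) (f : S) (hf : f ∈ multiplier I c) :
    (((⌊W * c⌋₊ + 1 - A : ℕ) : ℤ) : WithTop ℤ) ≤ V v f := by
  by_contra hcon
  push Not at hcon
  have hfne : f ≠ 0 := by
    rintro rfl
    simp [V] at hcon
  obtain ⟨k, hk⟩ := V_nat hv.1 hfne
  rw [hk] at hcon
  have hlt : k < ⌊W * c⌋₊ + 1 - A := by
    have := WithTop.coe_lt_coe.1 hcon
    exact_mod_cast this
  have h1 : k + A ≤ ⌊W * c⌋₊ := by omega
  have h2 : ((k + A : ℕ) : ℝ) ≤ W * c :=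
    (Nat.cast_le.2 h1).trans (Nat.floor_le (by positivity))
  have h3 := hf v hv
  have h4 : (((W : ℝ)) : EReal) ≤ ordI v I := by
    unfold ordI
    refine le_iInf fun g => le_iInf fun hg => ?_
    rw [← toE_nat]
    exact toE_mono (hW g hg)
  have h5 : (c : EReal) * ((W : ℝ) : EReal) ≤ (c : EReal) * ordI v I :=
    mul_le_mul_of_nonneg_left h4 (by exact_mod_cast hc.le)
  have h6 : toE (v (algebraMap S K f)) + logDisc v ≤ (((k : ℝ)) : EReal) + ((A : ℝ) : EReal) := by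
    have : toE (v (algebraMap S K f)) = ((k : ℝ) : EReal) := by
      rw [← toE_nat]; exact congrArg toE hk
    rw [this]
    exact add_le_add le_rfl hA
  have h7 : (c : EReal) * ((W : ℝ) : EReal) < ((k : ℝ) : EReal) + ((A : ℝ) : EReal) :=
    (h5.trans_lt h3).trans_le h6
  rw [← EReal.coe_mul, ← EReal.coe_add, EReal.coe_lt_coe_iff] at h7
  push_cast at h2
  linarith

lemma nec_weight (C : Config) (c : ℝ) (hc : 0 < c) (f : S)
    (hf : f ∈ multiplier (idealOf C.pts) c) (w : Fin 3 → ℕ) (i₀ : Fin 3) (hw : w i₀ = 1)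
    (W m : ℕ) (hm : m + (w 0 + w 1 + w 2) = ⌊W * c⌋₊ + 1 ∨ m = 0)
    (h : ∀ e : Fin 3 → ℕ, 4 ≤ e 0 + e 1 + e 2 → (e 0 + e 1 + e 2 < 10 → 1 ≤ e 0) →
      (e 0 + e 1 + e 2 < 8 → 1 ≤ e 1) → (e 0 + e 1 + e 2 < 6 → 1 ≤ e 2) →
      W ≤ ∑ i, w i * e i) : f ∈ wIdeal C.ℓ w m := by
  obtain ⟨v, hv, hA, hmem⟩ := exists_monVal C.ℓ C.indep w i₀ hw
  have h1 := nec_aux (idealOf C.pts) c hc v hv (w 0 + w 1 + w 2) W hA (fun g hg =>
    (hmem g W).2 (idealOf_pts_le_wIdeal C w W h hg)) f hf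
  rw [V, hmem] at h1
  exact wIdeal_antitone _ _ (by omega) h1

lemma nec_point (C : Config) (c : ℝ) (hc : 0 < c) (f : S)
    (hf : f ∈ multiplier (idealOf C.pts) c) (p : Plane) (hp : p ∈ C.pts) :
    f ∈ idealOf {p} ^ (⌊c⌋₊ - 1) := by
  -- a linear form through p
  obtain ⟨s₀, hs₀, h0⟩ : ∃ s₀ : Fin 3 → ℂ, s₀ ≠ 0 ∧ OnLine s₀ p := by
    by_cases h : p.rep 0 = 0
    · refine ⟨Pi.single 0 1, by simp, ?_⟩
      simp [OnLine, Pi.single_apply, h]
    · refine ⟨![p.rep 1, -p.rep 0, 0], ?_, ?_⟩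
      · intro h'
        apply h
        have := congrFun h' 1
        simpa using this
      · simp [OnLine, Fin.sum_univ_three]
        ring
  obtain ⟨s₁, m, h1, _, hind⟩ := exists_through p s₀ hs₀ h0
  rw [idealOf_singleton_pow p ![s₀, s₁, m] hind h0 h1]
  obtain ⟨v, hv, hA, hmem⟩ := exists_monVal ![s₀, s₁, m] hind ![1, 1, 0] 0 rfl
  have hW : ∀ g ∈ idealOf C.pts, ((((1 : ℕ) : ℤ)) : WithTop ℤ) ≤ V v g := by
    intro g hg
    rw [V, hmem, ← idealOf_singleton p ![s₀, s₁, m] hind h0 h1]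
    exact idealOf_anti (Set.singleton_subset_iff.2 hp) hg
  have h2 := nec_aux (idealOf C.pts) c hc v hv _ 1 hA hW f hf
  rw [V, hmem] at h2
  refine wIdeal_antitone _ _ ?_ h2
  simp

theorem multiplier_subset (C : Config) (c : ℝ) (hc : 0 < c) :
    multiplier (idealOf C.pts) c ⊆ (C.explicit c : Set S) := by
  intro f hf
  have key := nec_weight C c hc f hf
  simp only [Config.explicit, SetLike.mem_coe, Ideal.mem_inf, Submodule.mem_iInf]
  refine ⟨⟨⟨⟨⟨⟨⟨?_, ?_⟩, ?_⟩, ?_⟩, ?_⟩, ?_⟩, ?_⟩, ?_⟩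
  · refine key _ 0 rfl 4 _ (by simp; omega) ?_
    intro e h0 h1 h2 h3
    simp only [Fin.sum_univ_three, Matrix.cons_val_zero, Matrix.cons_val_one, Matrix.cons_val]
    omega
  · refine key _ 1 rfl 10 _ (by simp; omega) ?_
    intro e h0 h1 h2 h3
    simp only [Fin.sum_univ_three, Matrix.cons_val_zero, Matrix.cons_val_one, Matrix.cons_val]
    omega
  · refine key _ 0 rfl 8 _ (by simp; omega) ?_
    intro e h0 h1 h2 h3
    simp only [Fin.sum_univ_three, Matrix.cons_val_zero, Matrix.cons_val_one, Matrix.cons_val]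
    omega
  · refine key _ 0 rfl 6 _ (by simp; omega) ?_
    intro e h0 h1 h2 h3
    simp only [Fin.sum_univ_three, Matrix.cons_val_zero, Matrix.cons_val_one, Matrix.cons_val]
    omega
  · refine key _ 2 rfl 10 _ (by simp; omega) ?_
    intro e h0 h1 h2 h3
    simp only [Fin.sum_univ_three, Matrix.cons_val_zero, Matrix.cons_val_one, Matrix.cons_val]
    omega
  · refine key _ 1 rfl 10 _ (by simp; omega) ?_
    intro e h0 h1 h2 h3
    simp only [Fin.sum_univ_three, Matrix.cons_val_zero, Matrix.cons_val_one, Matrix.cons_val]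
    omega
  · refine key _ 0 rfl 8 _ (by simp; omega) ?_
    intro e h0 h1 h2 h3
    simp only [Fin.sum_univ_three, Matrix.cons_val_zero, Matrix.cons_val_one, Matrix.cons_val]
    omega
  · intro p hp
    exact nec_point C c hc f hf p hp

end Pool.Agent.Helper61.MI
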