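import Pool.Agent.Helper61.MI.Defs

set_option autoImplicit false

/-! Configurations exist. -/

noncomputable section

namespace Pool.Agent.Helper61.MI

open MvPolynomial

/-- The point with homogeneous coordinates `v`. -/
def pt (v : Fin 3 → ℂ) (hv : v ≠ 0) : Plane := Projectivization.mk ℂ v hv

lemma onLine_pt (a v : Fin 3 → ℂ) (hv : v ≠ 0) :
    OnLine a (pt v hv) ↔ ∑ i, a i * v i = 0 := by
  obtain ⟨u, hu⟩ := Projectivization.exists_smul_eq_mk_rep ℂ v hv
  unfold OnLine pt
  rw [← hu]
  have h : ∑ i, a i * (u • v) i = (u : ℂ) * ∑ i, a i * v i := by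
    rw [Finset.mul_sum]
    refine Finset.sum_congr rfl fun i _ => ?_
    rw [Pi.smul_apply, Units.smul_def, smul_eq_mul]
    ring
  rw [h, mul_eq_zero]
  constructor
  · rintro (h | h)
    · exact absurd h u.ne_zero
    · exact h
  · exact Or.inr

/-- The points on the coordinate lines: on `xᵢ = 0` those with the two other coordinates `1` and
`t + 1`. -/
def cv (i : Fin 3) (t : ℕ) : Fin 3 → ℂ := fun j =>
  if j = i then 0 else if j = i + 1 then 1 else (t + 1 : ℂ)

lemma cv_ne (i : Fin 3) (t : ℕ) : cv i t ≠ 0 := by
  intro h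
  have := congrFun h (i + 1)
  have hi : i + 1 ≠ i := by fin_cases i <;> decide
  simp [cv, hi] at this

lemma cv_inj (i : Fin 3) : Function.Injective fun t : ℕ => pt (cv i t) (cv_ne i t) := by
  intro s t hst
  obtain ⟨u, hu⟩ := (Projectivization.mk_eq_mk_iff ℂ _ _ (cv_ne i s) (cv_ne i t)).1 hst
  have h1 := congrFun hu (i + 1)
  have h2 := congrFun hu (i + 2)
  have hi : i + 1 ≠ i := by fin_cases i <;> decide
  have hi2 : i + 2 ≠ i := by fin_cases i <;> decide
  have hi3 : i + 2 ≠ i + 1 := by fin_cases i <;> decide
  simp only [cv, hi, hi2, hi3, if_true, if_false, Pi.smul_apply, Units.smul_def, smul_eq_mul,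
    mul_one] at h1 h2
  rw [h1, one_mul] at h2
  have h3 : (t : ℂ) = s := by linear_combination h2
  exact (Nat.cast_injective h3).symm

instance : Nonempty Config := by
  classical
  refine ⟨{
    ℓ := fun i => Pi.single i 1
    indep := ?_
    Z := fun i => (Finset.range (![10, 7, 4] i)).map ⟨_, cv_inj i⟩
    card := ?_
    mem := ?_
    P := pt (fun _ => 1) (fun h => one_ne_zero (congrFun h 0))
    hP := ?_ }⟩
  · have := (Pi.basisFun ℂ (Fin 3)).linearIndependent
    convert this using 1
    funext i
    simp
  · intro i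
    simp
  · intro i p hp j
    simp only [Finset.mem_map, Finset.mem_range, Function.Embedding.coeFn_mk] at hp
    obtain ⟨t, _, rfl⟩ := hp
    rw [onLine_pt]
    simp only [Pi.single_apply, ite_mul, one_mul, zero_mul, Finset.sum_ite_eq', Finset.mem_univ,
      if_true, cv]
    constructor
    · intro h
      by_contra hji
      rw [if_neg hji] at h
      split_ifs at h with h1
      · exact one_ne_zero h
      · exact Nat.cast_add_one_ne_zero t h
    · intro h
      rw [if_pos h]
  · intro j
    rw [onLine_pt]
    simp [Pi.single_apply]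

end Pool.Agent.Helper61.MI
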