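import Mathlib

set_option autoImplicit false

/-! Module F: the numerical inequalities. -/

namespace Pool.Agent.Helper61.MI

theorem num_point (c : ℝ) (hc : 0 < c) (m : ℕ) (hm : 4 ≤ m) (t a b : ℕ) (ha : 0 < a)
    (hb : 0 < b) (e : Fin 3 → ℕ)
    (h1 : 4 * c < e 0 + e 1 + e 2 + 3)
    (h2 : m * c < (m - 3) * e 0 + e 1 + e 2 + (m - 1))
    (h3 : c < e 0 + e 1 + 2) :
    c * min (4 * t + a : ℝ) (m * t + b) <
      (e 0 + e 1 + e 2 + 3) * t + (e 0 + 1) * a + (e 1 + 1) * b := by
  have hm' : (4 : ℝ) ≤ m := by exact_mod_cast hm
  have ht : (0 : ℝ) ≤ t := Nat.cast_nonneg t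
  have ha' : (0 : ℝ) < a := by exact_mod_cast ha
  have hb' : (0 : ℝ) < b := by exact_mod_cast hb
  have e0 : (0 : ℝ) ≤ e 0 := Nat.cast_nonneg _
  have e1 : (0 : ℝ) ≤ e 1 := Nat.cast_nonneg _
  have e2 : (0 : ℝ) ≤ e 2 := Nat.cast_nonneg _
  generalize (e 0 : ℝ) = x at *
  generalize (e 1 : ℝ) = y at *
  generalize (e 2 : ℝ) = z at *
  generalize (t : ℝ) = t at *
  generalize (a : ℝ) = a at *
  generalize (b : ℝ) = b at *
  generalize (m : ℝ) = m at *
  rcases le_total a b with hab | hab
  · -- (t,a,b) = t(1,0,0) + a(0,1,1) + (b-a)(0,0,1), value ≤ 4t + a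
    have hmin : min (4 * t + a) (m * t + b) ≤ 4 * t + a := min_le_left _ _
    have h4 : c * min (4 * t + a) (m * t + b) ≤ c * (4 * t + a) :=
      mul_le_mul_of_nonneg_left hmin hc.le
    have h5 : (x + y + z + 3) * t + (x + 1) * a + (y + 1) * b - c * (4 * t + a) =
        (x + y + z + 3 - 4 * c) * t + (x + y + 2 - c) * a + (y + 1) * (b - a) := by ring
    have h6 : 0 ≤ (x + y + z + 3 - 4 * c) * t := mul_nonneg (by linarith) ht
    have h7 : 0 < (x + y + 2 - c) * a := mul_pos (by linarith) ha'
    have h8 : 0 ≤ (y + 1) * (b - a) := mul_nonneg (by linarith) (by linarith)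
    linarith
  · rcases le_total a ((m - 4) * t + b) with hr | hr
    · -- (t,a,b) = α(1,0,0) + β(1,m-4,0) + b(0,1,1), (m-4)β = a - b
      have hmin : min (4 * t + a) (m * t + b) ≤ 4 * t + a := min_le_left _ _
      have h4 : c * min (4 * t + a) (m * t + b) ≤ c * (4 * t + a) :=
        mul_le_mul_of_nonneg_left hmin hc.le
      rcases eq_or_lt_of_le hm' with hm4 | hm4
      · subst hm4
        have hab' : a = b := by linarith
        subst hab'
        nlinarith [mul_nonneg (by linarith : (0:ℝ) ≤ x + y + z + 3 - 4 * c) ht,
          mul_pos (by linarith : (0:ℝ) < x + y + 2 - c) ha']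
      · have hβ : 0 ≤ (a - b) / (m - 4) := div_nonneg (by linarith) (by linarith)
        have hα : 0 ≤ t - (a - b) / (m - 4) := by
          rw [sub_nonneg, div_le_iff₀ (by linarith)]
          linarith
        have hid : (m - 4) * ((a - b) / (m - 4)) = a - b := by
          field_simp
        have h5 : (x + y + z + 3) * t + (x + 1) * a + (y + 1) * b - c * (4 * t + a) =
            (x + y + z + 3 - 4 * c) * (t - (a - b) / (m - 4)) +
            ((m - 3) * x + y + z + (m - 1) - m * c) * ((a - b) / (m - 4)) +
            (x + y + 2 - c) * b := by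
          linear_combination (-(x + 1) + c) * hid
        have h6 := mul_nonneg (by linarith : (0:ℝ) ≤ x + y + z + 3 - 4 * c) hα
        have h7 := mul_nonneg
          (by linarith : (0:ℝ) ≤ (m - 3) * x + y + z + (m - 1) - m * c) hβ
        have h8 : 0 < (x + y + 2 - c) * b := mul_pos (by linarith) hb'
        linarith
    · -- value m t + b : t(1,m-4,0) + b(0,1,1) + (a - (m-4)t - b)(0,1,0)
      have hmin : min (4 * t + a) (m * t + b) ≤ m * t + b := min_le_right _ _
      have h4 : c * min (4 * t + a) (m * t + b) ≤ c * (m * t + b) :=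
        mul_le_mul_of_nonneg_left hmin hc.le
      have h5 : (x + y + z + 3) * t + (x + 1) * a + (y + 1) * b - c * (m * t + b) =
          ((m - 3) * x + y + z + (m - 1) - m * c) * t + (x + y + 2 - c) * b +
          (x + 1) * (a - ((m - 4) * t + b)) := by ring
      have h6 := mul_nonneg
          (by linarith : (0:ℝ) ≤ (m - 3) * x + y + z + (m - 1) - m * c) ht
      have h7 : 0 < (x + y + 2 - c) * b := mul_pos (by linarith) hb'
      have h8 : 0 ≤ (x + 1) * (a - ((m - 4) * t + b)) := mul_nonneg (by linarith) (by linarith)
      linarith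

theorem num_pair (c N I J r s t p q : ℝ) (hc : 0 < c) (hr : 0 < r) (hs : 0 < s)
    (ht : 0 ≤ t) (hp : 0 ≤ p) (hq : 0 ≤ q) (hne : 0 < t + p + q) (hI : 0 < I) (hJ : 0 < J)
    (H0 : 0 < N - 4 * c) (H1 : 0 < N + (r + s) * I - (4 + r + s) * c)
    (H2 : 0 < N + r * J - (4 + r) * c) (H3 : 0 < N + s * I + r * J - (4 + r + s) * c) :
    c * min (4 * t + p + q) (min ((4 + r) * t + p) ((4 + r + s) * t)) <
      N * t + I * p + J * q := by
  have key : ∀ V, min (4 * t + p + q) (min ((4 + r) * t + p) ((4 + r + s) * t)) ≤ V →
      0 < N * t + I * p + J * q - c * V →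
      c * min (4 * t + p + q) (min ((4 + r) * t + p) ((4 + r + s) * t)) <
      N * t + I * p + J * q := by
    intro V hV hpos
    have := mul_le_mul_of_nonneg_left hV hc.le
    linarith
  obtain ⟨u, hu⟩ : ∃ u, r * u = q := ⟨q / r, by field_simp⟩
  obtain ⟨w, hw⟩ : ∃ w, s * w = p := ⟨p / s, by field_simp⟩
  have hu0 : 0 ≤ u := by
    by_contra h
    push Not at h
    nlinarith
  have hw0 : 0 ≤ w := by
    by_contra h
    push Not at h
    nlinarith
  rcases le_total u t with h1 | h1
  · rcases le_total (p + q) ((r + s) * t) with h2 | h2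
    · rcases le_total u w with h3 | h3
      · -- A1
        obtain ⟨β, hβ⟩ : ∃ β, (r + s) * β = p - s * u := ⟨(p - s * u) / (r + s), by field_simp⟩
        have hβ0 : 0 ≤ β := by
          by_contra h
          push Not at h
          nlinarith [mul_nonneg hs.le (sub_nonneg.2 h3), mul_pos (add_pos hr hs) (neg_pos.2 h)]
        have hα : 0 ≤ t - β - u := by
          by_contra h
          push Not at h
          have := mul_pos (add_pos hr hs) (neg_pos.2 h)
          nlinarith
        apply key (4 * t + p + q) (min_le_left _ _)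
        have h5 : N * t + I * p + J * q - c * (4 * t + p + q) =
            (N - 4 * c) * (t - β - u) + (N + (r + s) * I - (4 + r + s) * c) * β +
            (N + s * I + r * J - (4 + r + s) * c) * u := by
          linear_combination (-(J - c)) * hu - (I - c) * hβ
        rw [h5]
        by_contra hcon
        push Not at hcon
        have a1 := mul_nonneg H0.le hα
        have a2 := mul_nonneg H1.le hβ0
        have a3 := mul_nonneg H3.le hu0
        have b1 : t - β - u = 0 := by
          have : (N - 4 * c) * (t - β - u) = 0 := by linarith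
          exact (mul_eq_zero.1 this).resolve_left H0.ne'
        have b2 : β = 0 := by
          have : (N + (r + s) * I - (4 + r + s) * c) * β = 0 := by linarith
          exact (mul_eq_zero.1 this).resolve_left H1.ne'
        have b3 : u = 0 := by
          have : (N + s * I + r * J - (4 + r + s) * c) * u = 0 := by linarith
          exact (mul_eq_zero.1 this).resolve_left H3.ne'
        rw [b2, b3] at hβ b1
        rw [b3] at hu
        nlinarith
      · -- A2
        have hα : 0 ≤ t - u := by linarith
        have hδ : 0 ≤ u - w := by linarith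
        apply key (4 * t + p + q) (min_le_left _ _)
        have h5 : N * t + I * p + J * q - c * (4 * t + p + q) =
            (N - 4 * c) * (t - u) + (N + r * J - (4 + r) * c) * (u - w) +
            (N + s * I + r * J - (4 + r + s) * c) * w := by
          linear_combination (-(J - c)) * hu - (I - c) * hw
        rw [h5]
        by_contra hcon
        push Not at hcon
        have a1 := mul_nonneg H0.le hα
        have a2 := mul_nonneg H2.le hδ
        have a3 := mul_nonneg H3.le hw0
        have b1 : t - u = 0 := by
          have : (N - 4 * c) * (t - u) = 0 := by linarith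
          exact (mul_eq_zero.1 this).resolve_left H0.ne'
        have b2 : u - w = 0 := by
          have : (N + r * J - (4 + r) * c) * (u - w) = 0 := by linarith
          exact (mul_eq_zero.1 this).resolve_left H2.ne'
        have b3 : w = 0 := by
          have : (N + s * I + r * J - (4 + r + s) * c) * w = 0 := by linarith
          exact (mul_eq_zero.1 this).resolve_left H3.ne'
        have b4 : u = 0 := by linarith
        rw [b3] at hw
        rw [b4] at hu
        linarith
    · -- C1
      have hβ : 0 ≤ t - u := by linarith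
      have hκ : 0 ≤ p + q - (r + s) * t := by linarith
      apply key ((4 + r + s) * t) ((min_le_right _ _).trans (min_le_right _ _))
      have h5 : N * t + I * p + J * q - c * ((4 + r + s) * t) =
          (N + s * I + r * J - (4 + r + s) * c) * u +
          (N + (r + s) * I - (4 + r + s) * c) * (t - u) + I * (p + q - (r + s) * t) := by
        linear_combination (I - J) * hu
      rw [h5]
      by_contra hcon
      push Not at hcon
      have a1 := mul_nonneg H3.le hu0
      have a2 := mul_nonneg H1.le hβ
      have a3 := mul_nonneg hI.le hκ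
      have b1 : u = 0 := by
        have : (N + s * I + r * J - (4 + r + s) * c) * u = 0 := by linarith
        exact (mul_eq_zero.1 this).resolve_left H3.ne'
      have b2 : t - u = 0 := by
        have : (N + (r + s) * I - (4 + r + s) * c) * (t - u) = 0 := by linarith
        exact (mul_eq_zero.1 this).resolve_left H1.ne'
      have b3 : p + q - (r + s) * t = 0 := by
        have : I * (p + q - (r + s) * t) = 0 := by linarith
        exact (mul_eq_zero.1 this).resolve_left hI.ne'
      have b4 : t = 0 := by linarith
      rw [b4] at b3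
      linarith
  · have hq' : 0 ≤ q - r * t := by nlinarith
    rcases le_total w t with h2 | h2
    · -- B
      have hδ : 0 ≤ t - w := by linarith
      apply key ((4 + r) * t + p) ((min_le_right _ _).trans (min_le_left _ _))
      have h5 : N * t + I * p + J * q - c * ((4 + r) * t + p) =
          (N + r * J - (4 + r) * c) * (t - w) + (N + s * I + r * J - (4 + r + s) * c) * w +
          J * (q - r * t) := by
        linear_combination (-(I - c)) * hw
      rw [h5]
      by_contra hcon
      push Not at hcon
      have a1 := mul_nonneg H2.le hδ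
      have a2 := mul_nonneg H3.le hw0
      have a3 := mul_nonneg hJ.le hq'
      have b1 : t - w = 0 := by
        have : (N + r * J - (4 + r) * c) * (t - w) = 0 := by linarith
        exact (mul_eq_zero.1 this).resolve_left H2.ne'
      have b2 : w = 0 := by
        have : (N + s * I + r * J - (4 + r + s) * c) * w = 0 := by linarith
        exact (mul_eq_zero.1 this).resolve_left H3.ne'
      have b3 : q - r * t = 0 := by
        have : J * (q - r * t) = 0 := by linarith
        exact (mul_eq_zero.1 this).resolve_left hJ.ne'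
      have b4 : t = 0 := by linarith
      rw [b2] at hw
      rw [b4] at b3
      linarith
    · -- C2
      have hp' : 0 ≤ p - s * t := by nlinarith
      apply key ((4 + r + s) * t) ((min_le_right _ _).trans (min_le_right _ _))
      have h5 : N * t + I * p + J * q - c * ((4 + r + s) * t) =
          (N + s * I + r * J - (4 + r + s) * c) * t + I * (p - s * t) + J * (q - r * t) := by
        ring
      rw [h5]
      by_contra hcon
      push Not at hcon
      have a1 := mul_nonneg H3.le ht
      have a2 := mul_nonneg hI.le hp'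
      have a3 := mul_nonneg hJ.le hq'
      have b1 : t = 0 := by
        have : (N + s * I + r * J - (4 + r + s) * c) * t = 0 := by linarith
        exact (mul_eq_zero.1 this).resolve_left H3.ne'
      have b2 : p - s * t = 0 := by
        have : I * (p - s * t) = 0 := by linarith
        exact (mul_eq_zero.1 this).resolve_left hI.ne'
      have b3 : q - r * t = 0 := by
        have : J * (q - r * t) = 0 := by linarith
        exact (mul_eq_zero.1 this).resolve_left hJ.ne'
      rw [b1] at b2 b3
      linarith

theorem num_generic (c : ℝ) (hc : 0 < c) (t a b d : ℕ) (e : Fin 3 → ℕ)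
    (hz : a = 0 ∨ b = 0 ∨ d = 0) (hne : ¬ (t = 0 ∧ a = 0 ∧ b = 0 ∧ d = 0))
    (h1 : 4 * c < e 0 + e 1 + e 2 + 3)
    (h2 : 10 * c < 7 * e 0 + e 1 + e 2 + 9)
    (h3 : 8 * c < e 0 + 5 * e 1 + e 2 + 7)
    (h4 : 6 * c < e 0 + e 1 + 3 * e 2 + 5)
    (h5 : 10 * c < 3 * e 0 + 5 * e 1 + e 2 + 9)
    (h6 : 10 * c < 5 * e 0 + e 1 + 3 * e 2 + 9)
    (h7 : 8 * c < e 0 + 3 * e 1 + 3 * e 2 + 7) :
    c * min (min (4 * t + a + b + d : ℝ) (6 * t + a + b)) (min (8 * t + a) (10 * t)) <
      (e 0 + e 1 + e 2 + 3) * t + (e 0 + 1) * a + (e 1 + 1) * b + (e 2 + 1) * d := by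
  have ht : (0 : ℝ) ≤ t := Nat.cast_nonneg t
  have ha : (0 : ℝ) ≤ a := Nat.cast_nonneg a
  have hb : (0 : ℝ) ≤ b := Nat.cast_nonneg b
  have hd : (0 : ℝ) ≤ d := Nat.cast_nonneg d
  have e0 : (0 : ℝ) ≤ e 0 := Nat.cast_nonneg _
  have e1 : (0 : ℝ) ≤ e 1 := Nat.cast_nonneg _
  have e2 : (0 : ℝ) ≤ e 2 := Nat.cast_nonneg _
  have hpos : (0 : ℝ) < t + a + b + d := by
    have : 0 < t + a + b + d := by omega
    exact_mod_cast this
  generalize hM : min (min (4 * t + a + b + d : ℝ) (6 * t + a + b)) (min (8 * t + a) (10 * t)) = M
  have m1 : M ≤ 4 * t + a + b + d := hM ▸ (min_le_left _ _).trans (min_le_left _ _)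
  have m2 : M ≤ 6 * t + a + b := hM ▸ (min_le_left _ _).trans (min_le_right _ _)
  have m3 : M ≤ 8 * t + a := hM ▸ (min_le_right _ _).trans (min_le_left _ _)
  have m4 : M ≤ 10 * t := hM ▸ (min_le_right _ _).trans (min_le_right _ _)
  rcases hz with h0 | h0 | h0
  · -- a = 0 : pair (b, d), r = 2, s = 2
    have h0' : (a : ℝ) = 0 := by exact_mod_cast h0
    have := num_pair c (e 0 + e 1 + e 2 + 3) (e 1 + 1) (e 2 + 1) 2 2 t b d hc (by norm_num)
      (by norm_num) ht hb hd (by linarith) (by linarith) (by linarith) (by linarith)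
      (by linarith) (by linarith) (by linarith)
    refine lt_of_le_of_lt ?_ (lt_of_lt_of_eq this (by rw [h0']; ring))
    apply mul_le_mul_of_nonneg_left _ hc.le
    refine le_min (by linarith) (le_min (by linarith) (by linarith))
  · -- b = 0 : pair (a, d), r = 2, s = 4
    have h0' : (b : ℝ) = 0 := by exact_mod_cast h0
    have := num_pair c (e 0 + e 1 + e 2 + 3) (e 0 + 1) (e 2 + 1) 2 4 t a d hc (by norm_num)
      (by norm_num) ht ha hd (by linarith) (by linarith) (by linarith) (by linarith)
      (by linarith) (by linarith) (by linarith)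
    refine lt_of_le_of_lt ?_ (lt_of_lt_of_eq this (by rw [h0']; ring))
    apply mul_le_mul_of_nonneg_left _ hc.le
    refine le_min (by linarith) (le_min (by linarith) (by linarith))
  · -- d = 0 : pair (a, b), r = 4, s = 2
    have h0' : (d : ℝ) = 0 := by exact_mod_cast h0
    have := num_pair c (e 0 + e 1 + e 2 + 3) (e 0 + 1) (e 1 + 1) 4 2 t a b hc (by norm_num)
      (by norm_num) ht ha hb (by linarith) (by linarith) (by linarith) (by linarith)
      (by linarith) (by linarith) (by linarith)
    refine lt_of_le_of_lt ?_ (lt_of_lt_of_eq this (by rw [h0']; ring))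
    apply mul_le_mul_of_nonneg_left _ hc.le
    refine le_min (by linarith) (le_min (by linarith) (by linarith))

end Pool.Agent.Helper61.MI
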