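import Pool.Agent.Helper61.MI.Exp

set_option autoImplicit false

/-! The ideal of one point and its powers. -/

noncomputable section

namespace Pool.Agent.Helper61.MI

open MvPolynomial

lemma mem_idealOf {Z : Set Plane} {f : S} :
    f ∈ idealOf Z ↔ ∀ p ∈ Z, ∀ t : ℂ, aeval (t • p.rep) f = 0 := by
  unfold idealOf
  rw [mem_vanishingIdeal_iff]
  constructor
  · intro h p hp t
    exact h _ ⟨p, hp, t, rfl⟩
  · rintro h _ ⟨p, hp, t, rfl⟩
    exact h p hp t

lemma idealOf_anti {Z Z' : Set Plane} (h : Z ⊆ Z') : idealOf Z' ≤ idealOf Z := by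
  intro f hf
  rw [mem_idealOf] at hf ⊢
  exact fun p hp t => hf p (h hp) t

/-- Restriction to the third coordinate axis. -/
def axis : S →ₐ[ℂ] Polynomial ℂ := aeval ![0, 0, Polynomial.X]

lemma coeff_axis (g : S) (k : ℕ) :
    (axis g).coeff k = coeff (Finsupp.single 2 k) g := by
  induction g using MvPolynomial.induction_on' with
  | monomial e a =>
    have h1 : axis (monomial e a) = Polynomial.C a * (0 ^ e 0 * 0 ^ e 1 * Polynomial.X ^ e 2) := by
      simp only [axis, aeval_monomial, Polynomial.algebraMap_apply, Algebra.algebraMap_self,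
        RingHom.id_apply]
      rw [Finsupp.prod_fintype _ _ (by simp), Fin.prod_univ_three]
      rfl
    rw [h1, coeff_monomial]
    by_cases h0 : e 0 = 0
    · by_cases h1' : e 1 = 0
      · have : (e = Finsupp.single 2 k) ↔ k = e 2 := by
          constructor
          · intro h
            rw [h]; simp
          · intro h
            ext i
            fin_cases i
            · simpa using h0
            · simpa using h1'
            · simp [h]
        simp only [h0, h1', pow_zero, one_mul, Polynomial.coeff_C_mul, Polynomial.coeff_X_pow]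
        by_cases hk : k = e 2
        · rw [if_pos hk, if_pos (this.2 hk), mul_one]
        · rw [if_neg hk, if_neg (fun h => hk (this.1 h)), mul_zero]
      · rw [if_neg, zero_pow h1']
        · simp
        · intro h
          apply h1'
          rw [h]; simp
    · rw [if_neg, zero_pow h0]
      · simp
      · intro h
        apply h0
        rw [h]; simp
  | add p q hp hq => rw [map_add, Polynomial.coeff_add, coeff_add, hp, hq]

lemma aeval_coord (ℓ : Fin 3 → Fin 3 → ℂ) (hℓ : LinearIndependent ℂ ℓ) (f : S) (x : Fin 3 → ℂ) :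
    aeval x f = aeval (fun i => ∑ j, ℓ i j * x j) ((coord ℓ hℓ).symm f) := by
  conv_lhs => rw [← (coord ℓ hℓ).apply_symm_apply f]
  rw [coord_apply]
  have h : ((aeval x : S →ₐ[ℂ] ℂ).comp (aeval fun i => lin (ℓ i))) =
      (aeval fun i => ∑ j, ℓ i j * x j) := by
    apply MvPolynomial.algHom_ext
    intro i
    simp [lin]
  exact DFunLike.congr_fun h _

lemma exists_ne_of_indep (s : Fin 3 → Fin 3 → ℂ) (hs : LinearIndependent ℂ s) (x : Fin 3 → ℂ)
    (hx : x ≠ 0) : ∃ i, ∑ j, s i j * x j ≠ 0 := by
  by_contra hcon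
  push Not at hcon
  apply hx
  have h1 : (Matrix.of s).mulVec x = 0 := by
    funext i
    exact hcon i
  have h2 := isUnit_det s hs
  calc x = ((Matrix.of s)⁻¹ * Matrix.of s).mulVec x := by
        rw [Matrix.nonsing_inv_mul _ h2, Matrix.one_mulVec]
    _ = 0 := by rw [← Matrix.mulVec_mulVec, h1, Matrix.mulVec_zero]

theorem idealOf_singleton (p : Plane) (s : Fin 3 → Fin 3 → ℂ) (hs : LinearIndependent ℂ s)
    (h0 : OnLine (s 0) p) (h1 : OnLine (s 1) p) :
    idealOf {p} = wIdeal s ![1, 1, 0] 1 := by
  apply le_antisymm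
  · intro f hf
    rw [mem_wIdeal_iff s hs]
    intro e he
    by_contra hlt
    have hlt' : e 0 = 0 ∧ e 1 = 0 := by
      simp [Fin.sum_univ_three] at hlt
      exact hlt
    obtain ⟨i, hi⟩ := exists_ne_of_indep s hs p.rep p.rep_nonzero
    have h2 : ∑ j, s 2 j * p.rep j ≠ 0 := by
      have h0' : ∑ j, s 0 j * p.rep j = 0 := h0
      have h1' : ∑ j, s 1 j * p.rep j = 0 := h1
      fin_cases i
      · exact absurd h0' hi
      · exact absurd h1' hi
      · exact hi
    set q := ∑ j, s 2 j * p.rep j with hq
    set g := (coord s hs).symm f with hg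
    have hax : axis g = 0 := by
      apply Polynomial.funext
      intro r
      rw [Polynomial.eval_zero]
      have h3 := (mem_idealOf.1 hf) p rfl (r / q)
      rw [aeval_coord s hs] at h3
      have h4 : (fun i => ∑ j, s i j * ((r / q) • p.rep) j) = ![0, 0, r] := by
        have hh : ∀ i, ∑ j, s i j * ((r / q) • p.rep) j = (r / q) * ∑ j, s i j * p.rep j := by
          intro i
          rw [Finset.mul_sum]
          refine Finset.sum_congr rfl fun j _ => ?_
          simp only [Pi.smul_apply, smul_eq_mul]
          ring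
        have h0' : ∑ j, s 0 j * p.rep j = 0 := h0
        have h1' : ∑ j, s 1 j * p.rep j = 0 := h1
        funext i
        rw [hh]
        fin_cases i
        · simp [h0']
        · simp [h1']
        · simp [← hq, div_mul_cancel₀ _ h2]
      rw [h4] at h3
      rw [← h3, ← Polynomial.coe_aeval_eq_eval, axis]
      have h5 : ((Polynomial.aeval r : Polynomial ℂ →ₐ[ℂ] ℂ).comp
          (aeval ![0, 0, Polynomial.X] : S →ₐ[ℂ] Polynomial ℂ)) = aeval ![0, 0, r] := by
        apply MvPolynomial.algHom_ext
        intro i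
        fin_cases i <;> simp
      exact DFunLike.congr_fun h5 g
    have h6 := coeff_axis g (e 2)
    rw [hax, Polynomial.coeff_zero] at h6
    have h7 : e = Finsupp.single 2 (e 2) := by
      ext i
      fin_cases i
      · simpa using hlt'.1
      · simpa using hlt'.2
      · simp
    rw [← h7] at h6
    exact (mem_support_iff.1 he) h6.symm
  · unfold wIdeal
    rw [Ideal.span_le]
    rintro _ ⟨e, he, rfl⟩
    simp only [SetLike.mem_coe, mem_idealOf, Set.mem_singleton_iff, forall_eq]
    intro t
    rw [map_prod, Fin.prod_univ_three]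
    simp only [map_pow, eval_lin]
    have hh : ∀ i, ∑ j, s i j * (t • p.rep) j = t * ∑ j, s i j * p.rep j := by
      intro i
      rw [Finset.mul_sum]
      refine Finset.sum_congr rfl fun j _ => ?_
      simp only [Pi.smul_apply, smul_eq_mul]
      ring
    have h0' : ∑ j, s 0 j * p.rep j = 0 := h0
    have h1' : ∑ j, s 1 j * p.rep j = 0 := h1
    simp only [hh, h0', h1', mul_zero]
    have he' : 1 ≤ e 0 + e 1 := by simpa [Fin.sum_univ_three] using he
    rcases Nat.eq_zero_or_pos (e 0) with h | h
    · have : e 1 ≠ 0 := by omega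
      rw [zero_pow this]; ring
    · rw [zero_pow (by omega)]; ring

theorem idealOf_singleton_pow (p : Plane) (s : Fin 3 → Fin 3 → ℂ) (hs : LinearIndependent ℂ s)
    (h0 : OnLine (s 0) p) (h1 : OnLine (s 1) p) (m : ℕ) :
    idealOf {p} ^ m = wIdeal s ![1, 1, 0] m := by
  rw [idealOf_singleton p s hs h0 h1]
  apply le_antisymm
  · induction m with
    | zero => rw [wIdeal_zero]; exact le_top
    | succ m ih =>
      rw [pow_succ]
      exact (Ideal.mul_mono_left ih).trans (wIdeal_mul _ _ _ _)
  · conv_lhs => unfold wIdeal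
    rw [Ideal.span_le]
    rintro _ ⟨e, he, rfl⟩
    have he' : m ≤ e 0 + e 1 := by simpa [Fin.sum_univ_three] using he
    have m0 : lin (s 0) ∈ wIdeal s ![1, 1, 0] 1 := by
      simpa using lin_mem_wIdeal s ![1, 1, 0] 0
    have m1 : lin (s 1) ∈ wIdeal s ![1, 1, 0] 1 := by
      simpa using lin_mem_wIdeal s ![1, 1, 0] 1
    rw [Fin.prod_univ_three]
    apply Ideal.mul_mem_right
    have := Ideal.mul_mem_mul (Ideal.pow_mem_pow m0 (e 0)) (Ideal.pow_mem_pow m1 (e 1))
    rw [← pow_add] at this
    exact Ideal.pow_le_pow_right he' this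

end Pool.Agent.Helper61.MI
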