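import Pool.Agent.Helper61.MI.Jump

set_option autoImplicit false

/-!
# The definitions used in the statement

The definitions of `Defs.lean` written in smaller pieces, the derivations `∂/∂xᵢ` of the function
field by the quotient rule, and their equality with those of `Defs.lean`.
-/

noncomputable section

namespace Pool.Agent.Helper61.MI.Stmt

open MvPolynomial

/-- A polynomial as a rational function. -/
def toK (f : S) : K := algebraMap S K f

/-- A numerator of a rational function. -/
def numK (f : K) : S := (IsLocalization.sec (nonZeroDivisors S) f).1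

/-- A denominator of a rational function, such that `f = numK f / denK f`. -/
def denK (f : K) : S := (IsLocalization.sec (nonZeroDivisors S) f).2

/-- `(∂a/∂xᵢ) b - a (∂b/∂xᵢ)`. -/
def wr (i : Fin 3) (a b : S) : S := pderiv i a * b - a * pderiv i b

/-- The partial derivative `∂f/∂xᵢ` of a rational function, by the quotient rule. -/
def pd (i : Fin 3) (f : K) : K := toK (wr i (numK f) (denK f)) / toK (denK f ^ 2)

/-- The Jacobian determinant `det (∂hᵢ/∂xⱼ)` of three rational functions. -/
def jac (h : Fin 3 → K) : K := (Matrix.of fun i j => pd j (h i)).det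

/-- The value `v f` of a rational function `f` under the (additive) valuation `v` of `K`. -/
def val (v : AddValuation K (WithTop ℤ)) (f : K) : WithTop ℤ := v f

/-- The rational function `P(a₀,a₁)`. -/
def evalK (a : Fin 2 → K) (P : MvPolynomial (Fin 2) ℂ) : K := aeval a P

/-- `v` is the order of vanishing `ord_E` along a prime divisor `E` over `ℂ³`: it is non-negative
on `S`, it takes the value `1`, and its residue field has transcendence degree at least `2` over
`ℂ` (hence exactly `2`), i.e. there are `a₀, a₁ : K` such that `v (P(a₀,a₁)) = 0` for every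
non-zero polynomial `P` in two variables. -/
def IsDivisorial (v : AddValuation K (WithTop ℤ)) : Prop :=
  (∀ f : S, 0 ≤ val v (toK f)) ∧ (∃ u : K, val v u = 1) ∧
    ∃ a : Fin 2 → K, ∀ P : MvPolynomial (Fin 2) ℂ, P ≠ 0 → val v (evalK a P) = 0

/-- The log discrepancy `A(v) = 1 + ord_E(K_{Y/ℂ³})`, where `E ⊂ Y → ℂ³` is the prime divisor of
`v`.  If `u₀,u₁,u₂` are local coordinates of `Y` at the generic point of `E`, the relative
canonical divisor has order `ord_E (det (∂xᵢ/∂uⱼ)) = - ord_E (det (∂uᵢ/∂xⱼ))` along `E`, and every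
other triple `h` of regular functions at the generic point of `E` has
`ord_E (jac h) ≥ ord_E (jac u)`.  So `A(v)` is the supremum of `1 - v (jac h)` over all triples `h`
in the valuation ring of `v`. -/
def logDisc (v : AddValuation K (WithTop ℤ)) : EReal :=
  ⨆ (h : Fin 3 → K) (_ : ∀ i, 0 ≤ val v (h i)), (1 - toE (val v (jac h)))

/-- `v(𝔞) = min {v(g) : g ∈ 𝔞}`. -/
def ordI (v : AddValuation K (WithTop ℤ)) (I : Ideal S) : EReal :=
  ⨅ g ∈ I, toE (val v (toK g))

/-- The multiplier ideal `𝒥(𝔞^c)` of a non-zero ideal `𝔞` of `S` and `c > 0`: all `f ∈ S` with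
`v(f) + A(v) > c · v(𝔞)` for every divisorial valuation `v`.  For a log resolution
`μ : Y → ℂ³` with `𝔞 · 𝒪_Y = 𝒪_Y(-F)` this is `μ_* 𝒪_Y(K_{Y/ℂ³} - ⌊cF⌋)`. -/
def multiplier (I : Ideal S) (c : ℝ) : Set S :=
  {f | ∀ v : AddValuation K (WithTop ℤ), IsDivisorial v →
    (c : EReal) * ordI v I < toE (val v (toK f)) + logDisc v}

/-- `c` is a jumping number of `𝔞`: `𝒥(𝔞^{c-ε}) ≠ 𝒥(𝔞^c)` for all `0 < ε < c`. -/
def IsJumpingNumber (I : Ideal S) (c : ℝ) : Prop :=
  0 < c ∧ ∀ ε : ℝ, 0 < ε → ε < c → multiplier I (c - ε) ≠ multiplier I c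

/-- `f` has weighted order at least `⌊m c⌋ - d` for the weights `w` of the coordinates
`lin (ℓ 0), lin (ℓ 1), lin (ℓ 2)`. -/
def W (C : Config) (w : Fin 3 → ℕ) (m d : ℕ) (c : ℝ) (f : S) : Prop :=
  f ∈ wIdeal C.ℓ w (⌊m * c⌋₊ - d)

/-- The multiplier ideal: all `f` with the following weighted orders in the three linear forms,
and of order at least `⌊c⌋ - 1` along the cone over each of the `22` points. -/
def explicit (C : Config) (c : ℝ) : Set S :=
  {f | W C ![1, 1, 1] 4 2 c f ∧ W C ![7, 1, 1] 10 8 c f ∧ W C ![1, 5, 1] 8 6 c f ∧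
    W C ![1, 1, 3] 6 4 c f ∧ W C ![3, 5, 1] 10 8 c f ∧ W C ![5, 1, 3] 10 8 c f ∧
    W C ![1, 3, 3] 8 6 c f ∧ ∀ p ∈ C.pts, f ∈ idealOf {p} ^ (⌊c⌋₊ - 1)}

/-! ### Comparison with the definitions of `Defs.lean` -/

lemma pd_eq (i : Fin 3) (f : K) : pd i f = MI.pd i f := by
  have h1 : f * toK (denK f) = toK (numK f) := by
    exact IsLocalization.sec_spec (nonZeroDivisors S) f
  have h2 : toK (denK f) ≠ 0 := by
    have := (IsLocalization.sec (nonZeroDivisors S) f).2.2
    exact IsFractionRing.to_map_ne_zero_of_mem_nonZeroDivisors this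
  have h3 : MI.pd i (f * toK (denK f)) = MI.pd i (toK (numK f)) := by rw [h1]
  have h4 : MI.pd i (toK (denK f)) = toK (pderiv i (denK f)) := pd_algebraMap i _
  have h5 : MI.pd i (toK (numK f)) = toK (pderiv i (numK f)) := pd_algebraMap i _
  rw [pd_mul, h4, h5] at h3
  have h6 : ∀ a b : S, toK (a * b) = toK a * toK b := fun a b => map_mul (algebraMap S K) a b
  have h7 : toK (wr i (numK f) (denK f)) =
      toK (pderiv i (numK f)) * toK (denK f) - toK (numK f) * toK (pderiv i (denK f)) := by
    rw [← h6, ← h6]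
    exact map_sub (algebraMap S K) _ _
  have h8 : toK (denK f ^ 2) = toK (denK f) ^ 2 := map_pow (algebraMap S K) _ _
  unfold pd
  rw [h7, h8, div_eq_iff (pow_ne_zero 2 h2), ← h1, ← h3]
  ring

lemma jac_eq (h : Fin 3 → K) : jac h = MI.jac h := by
  unfold jac MI.jac
  simp only [pd_eq]

lemma isDivisorial_iff (v : AddValuation K (WithTop ℤ)) : IsDivisorial v ↔ MI.IsDivisorial v :=
  Iff.rfl

lemma logDisc_eq (v : AddValuation K (WithTop ℤ)) : logDisc v = MI.logDisc v := by
  unfold logDisc MI.logDisc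
  simp only [jac_eq]
  rfl

lemma multiplier_eq' (I : Ideal S) (c : ℝ) : multiplier I c = MI.multiplier I c := by
  unfold multiplier MI.multiplier
  simp only [logDisc_eq]
  rfl

lemma isJumpingNumber_iff (I : Ideal S) (c : ℝ) :
    IsJumpingNumber I c ↔ MI.IsJumpingNumber I c := by
  unfold IsJumpingNumber MI.IsJumpingNumber
  simp only [multiplier_eq']

lemma explicit_eq (C : Config) (c : ℝ) : explicit C c = (C.explicit c : Set S) := by
  ext f
  rw [SetLike.mem_coe, mem_explicit]
  simp only [explicit, W, Set.mem_setOf_eq, Nat.cast_ofNat]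

end Pool.Agent.Helper61.MI.Stmt
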