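import Pool.Agent.Helper61.MI.Val
import Pool.Agent.Helper61.MI.ElemMod
import Pool.Agent.Helper63.MI.Deriv

set_option autoImplicit false

/-! Sufficiency: the explicit ideal is contained in the multiplier ideal. -/

noncomputable section

namespace Pool.Agent.Helper61.MI

open MvPolynomial
open ElemMod (elem_generic elem_line elem_P)

lemma suf_aux (I : Ideal S) (c : ℝ) (hc : 0 < c) (v : AddValuation K (WithTop ℤ))
    (f g : S) (hg : g ∈ I) (m : ℕ) (hgm : V v g ≤ ((m : ℤ) : WithTop ℤ))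
    (L k : ℕ) (hL : (((L : ℝ)) : EReal) ≤ logDisc v) (hk : ((k : ℤ) : WithTop ℤ) ≤ V v f)
    (hlt : c * m < k + L) :
    (c : EReal) * ordI v I < toE (v (algebraMap S K f)) + logDisc v := by
  have h1 : ordI v I ≤ ((m : ℝ) : EReal) := by
    unfold ordI
    refine (iInf_le_of_le g (iInf_le_of_le hg ?_))
    rw [← toE_nat]
    exact toE_mono hgm
  have h2 : (c : EReal) * ordI v I ≤ (c : EReal) * ((m : ℝ) : EReal) :=
    mul_le_mul_of_nonneg_left h1 (by exact_mod_cast hc.le)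
  have h3 : ((k : ℝ) : EReal) + ((L : ℝ) : EReal) ≤ toE (v (algebraMap S K f)) + logDisc v := by
    refine add_le_add ?_ hL
    rw [← toE_nat]
    exact toE_mono hk
  refine h2.trans_lt (lt_of_lt_of_le ?_ h3)
  rw [← EReal.coe_mul, ← EReal.coe_add, EReal.coe_lt_coe_iff]
  exact hlt

lemma nsmul_coe (e n : ℕ) : e • (((n : ℤ)) : WithTop ℤ) = (((e * n : ℕ) : ℤ) : WithTop ℤ) := by
  induction e with
  | zero => simp
  | succ e ih =>
    rw [succ_nsmul, ih, Nat.succ_mul]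
    norm_cast

/-- Value of a monomial. -/
lemma sum_nsmul_coe (e n : Fin 3 → ℕ) (ℓ : Fin 3 → Fin 3 → ℂ) (v : AddValuation K (WithTop ℤ))
    (hn : ∀ i, v (algebraMap S K (lin (ℓ i))) = ((n i : ℤ) : WithTop ℤ)) :
    ∑ i, e i • v (algebraMap S K (lin (ℓ i))) =
      (((e 0 * n 0 + e 1 * n 1 + e 2 * n 2 : ℕ) : ℤ) : WithTop ℤ) := by
  rw [Fin.sum_univ_three, hn, hn, hn, nsmul_coe, nsmul_coe, nsmul_coe]
  norm_cast

lemma lt_of_floor (W c : ℝ) (hW : 0 < W) (hc : 0 < c) (A x : ℕ) (h : ⌊W * c⌋₊ - A ≤ x) :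
    W * c < x + A + 1 := by
  have h1 : ⌊W * c⌋₊ ≤ x + A := by omega
  have h2 := Nat.lt_floor_add_one (W * c)
  have h3 : ((⌊W * c⌋₊ : ℕ) : ℝ) ≤ ((x + A : ℕ) : ℝ) := Nat.cast_le.2 h1
  push_cast at h3
  linarith

theorem suf_generic (C : Config) (c : ℝ) (hc : 0 < c) (v : AddValuation K (WithTop ℤ))
    (hv : IsDivisorial v) (t : ℕ)
    (ht : ∀ i, ((t : ℤ) : WithTop ℤ) ≤ V v (X i)) (ht' : ∃ i, V v (X i) = ((t : ℤ) : WithTop ℤ))
    (hcen : ∀ p ∈ C.pts, ∃ s : Fin 3 → ℂ, OnLine s p ∧ V v (lin s) = ((t : ℤ) : WithTop ℤ))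
    (f : S) (hf : f ∈ C.explicit c) :
    (c : EReal) * ordI v (idealOf C.pts) < toE (v (algebraMap S K f)) + logDisc v := by
  have hlin : ∀ i, ∃ k : ℕ, V v (lin (C.ℓ i)) = (((t + k : ℕ) : ℤ) : WithTop ℤ) := by
    intro i
    obtain ⟨k, hk⟩ := V_nat hv.1 (lin_ne_zero (C.indep.ne_zero i))
    have h1 := le_lin hv.1 t ht (C.ℓ i)
    rw [hk] at h1
    have h2 : t ≤ k := by
      have := WithTop.coe_le_coe.1 h1
      exact_mod_cast this
    exact ⟨k - t, by rw [hk, Nat.add_sub_cancel' h2]⟩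
  choose a ha using hlin
  obtain ⟨⟨g1, hg1, v1⟩, ⟨g2, hg2, v2⟩, ⟨g3, hg3, v3⟩, ⟨g4, hg4, v4⟩⟩ :=
    elem_generic C v hv.1 t ht hcen a ha
  have hz : a 0 = 0 ∨ a 1 = 0 ∨ a 2 = 0 := by
    by_contra hcon
    push Not at hcon
    obtain ⟨i, hi⟩ := ht'
    have h1 : ∀ k, ((t : ℤ) : WithTop ℤ) < V v (lin (C.ℓ k)) := by
      intro k
      rw [ha]
      have : (t : ℤ) < ((t + a k : ℕ) : ℤ) := by
        have : 0 < a k := by
          fin_cases k
          · exact Nat.pos_of_ne_zero hcon.1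
          · exact Nat.pos_of_ne_zero hcon.2.1
          · exact Nat.pos_of_ne_zero hcon.2.2
        push_cast
        omega
      exact_mod_cast this
    have h2 := lt_of_coords hv.1 C.ℓ C.indep _ h1 (Pi.single i 1)
    rw [lin_eq_X, hi] at h2
    exact lt_irrefl _ h2
  have hL := le_logDisc v hv C.ℓ C.indep (fun i => t + a i) ha
  by_cases hf0 : f = 0
  · -- v f = ⊤
    obtain ⟨k, hk⟩ : ∃ k : ℕ, c * ((10 * t : ℕ) : ℝ) < k := exists_nat_gt _
    refine suf_aux _ c hc v f g4 hg4 (10 * t) v4 0 k ?_ ?_ (by push_cast at hk ⊢; linarith)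
    · exact le_trans (by norm_num) (one_le_logDisc v hv)
    · rw [hf0]; simp [V]
  simp only [Config.explicit, Ideal.mem_inf, Submodule.mem_iInf] at hf
  obtain ⟨⟨⟨⟨⟨⟨⟨f1, f2⟩, f3⟩, f4⟩, f5⟩, f6⟩, f7⟩, _⟩ := hf
  obtain ⟨e, he, hle⟩ := exists_exponent v hv.1 C.ℓ C.indep (Finset.univ : Finset (Fin 7))
    ![![1, 1, 1], ![7, 1, 1], ![1, 5, 1], ![1, 1, 3], ![3, 5, 1], ![5, 1, 3], ![1, 3, 3]]
    ![⌊4 * c⌋₊ - 2, ⌊10 * c⌋₊ - 8, ⌊8 * c⌋₊ - 6, ⌊6 * c⌋₊ - 4, ⌊10 * c⌋₊ - 8, ⌊10 * c⌋₊ - 8,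
      ⌊8 * c⌋₊ - 6] f hf0 (by
      intro k _
      fin_cases k <;> simp <;> assumption)
  have he' := fun k => he k (Finset.mem_univ k)
  rw [sum_nsmul_coe e (fun i => t + a i) C.ℓ v ha] at hle
  have q1 := he' 0
  have q2 := he' 1
  have q3 := he' 2
  have q4 := he' 3
  have q5 := he' 4
  have q6 := he' 5
  have q7 := he' 6
  simp [Fin.sum_univ_three] at q1 q2 q3 q4 q5 q6 q7
  have r1 := lt_of_floor 4 c (by norm_num) hc 2 (e 0 + e 1 + e 2) (by omega)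
  have r2 := lt_of_floor 10 c (by norm_num) hc 8 (7 * e 0 + e 1 + e 2) (by omega)
  have r3 := lt_of_floor 8 c (by norm_num) hc 6 (e 0 + 5 * e 1 + e 2) (by omega)
  have r4 := lt_of_floor 6 c (by norm_num) hc 4 (e 0 + e 1 + 3 * e 2) (by omega)
  have r5 := lt_of_floor 10 c (by norm_num) hc 8 (3 * e 0 + 5 * e 1 + e 2) (by omega)
  have r6 := lt_of_floor 10 c (by norm_num) hc 8 (5 * e 0 + e 1 + 3 * e 2) (by omega)
  have r7 := lt_of_floor 8 c (by norm_num) hc 6 (e 0 + 3 * e 1 + 3 * e 2) (by omega)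
  push_cast at r1 r2 r3 r4 r5 r6 r7
  by_cases hne : t = 0 ∧ a 0 = 0 ∧ a 1 = 0 ∧ a 2 = 0
  · refine suf_aux _ c hc v f g4 hg4 (10 * t) v4 1 0 ?_ ?_ ?_
    · simpa using one_le_logDisc v hv
    · simpa using hv.1 f
    · rw [hne.1]; simp
  · have hnum := num_generic c hc t (a 0) (a 1) (a 2) e hz hne (by linarith) (by linarith)
      (by linarith) (by linarith) (by linarith) (by linarith) (by linarith)
    have hfin : ∀ (g : S) (m : ℕ), g ∈ idealOf C.pts → V v g ≤ ((m : ℤ) : WithTop ℤ) →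
        (m : ℝ) ≤ min (min (4 * t + a 0 + a 1 + a 2 : ℝ) (6 * t + a 0 + a 1))
          (min (8 * t + a 0) (10 * t)) →
        (c : EReal) * ordI v (idealOf C.pts) < toE (v (algebraMap S K f)) + logDisc v := by
      intro g m hg hgm hm
      refine suf_aux _ c hc v f g hg m hgm _ _ hL hle ?_
      have := mul_le_mul_of_nonneg_left hm hc.le
      push_cast
      nlinarith
    rcases min_choice (min (4 * t + a 0 + a 1 + a 2 : ℝ) (6 * t + a 0 + a 1))
      (min (8 * t + a 0) (10 * t)) with h | h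
    · rcases min_choice (4 * t + a 0 + a 1 + a 2 : ℝ) (6 * t + a 0 + a 1) with h' | h'
      · exact hfin g1 _ hg1 v1 (by rw [h, h']; push_cast; rfl)
      · exact hfin g2 _ hg2 v2 (by rw [h, h']; push_cast; rfl)
    · rcases min_choice (8 * t + a 0 : ℝ) (10 * t) with h' | h'
      · exact hfin g3 _ hg3 v3 (by rw [h, h']; push_cast; rfl)
      · exact hfin g4 _ hg4 v4 (by rw [h, h']; push_cast; rfl)

end Pool.Agent.Helper61.MI
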