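import Pool.Agent.Helper61.MI.Point
import Pool.Agent.Helper61.MI.Num

set_option autoImplicit false

/-! General lemmas on valuations of linear forms, and extended reals. -/

noncomputable section

namespace Pool.Agent.Helper61.MI

open MvPolynomial
open scoped ComplexOrder

lemma toE_coe (n : ℤ) : toE ((n : ℤ) : WithTop ℤ) = ((n : ℝ) : EReal) := rfl

lemma toE_nat (n : ℕ) : toE (((n : ℤ)) : WithTop ℤ) = ((n : ℝ) : EReal) := by
  rw [toE_coe]; norm_cast

lemma toE_mono {a b : WithTop ℤ} (h : a ≤ b) : toE a ≤ toE b := by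
  cases b with
  | top => exact le_top
  | coe b =>
    cases a with
    | top => simp at h
    | coe a =>
      rw [toE_coe, toE_coe]
      exact_mod_cast WithTop.coe_le_coe.1 h

lemma lin_add (a b : Fin 3 → ℂ) : lin (a + b) = lin a + lin b := by
  simp [lin, add_mul, Finset.sum_add_distrib]

lemma lin_smul (k : ℂ) (a : Fin 3 → ℂ) : lin (k • a) = C k * lin a := by
  simp only [lin, Pi.smul_apply, smul_eq_mul, C_mul, Finset.mul_sum, mul_assoc]

lemma coeff_lin (a : Fin 3 → ℂ) (i : Fin 3) : coeff (Finsupp.single i 1) (lin a) = a i := by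
  simp [lin, coeff_sum, coeff_C_mul, coeff_X, Finsupp.single_left_inj]

lemma lin_ne_zero {a : Fin 3 → ℂ} (ha : a ≠ 0) : lin a ≠ 0 := by
  intro h
  apply ha
  funext i
  rw [← coeff_lin a i, h]
  simp

variable (v : AddValuation K (WithTop ℤ))

/-- The value of a polynomial. -/
abbrev V (f : S) : WithTop ℤ := v (algebraMap S K f)

variable {v}

lemma V_nat (hv : ∀ f : S, 0 ≤ V v f) {f : S} (hf : f ≠ 0) : ∃ k : ℕ, V v f = ((k : ℤ) : WithTop ℤ) := by
  have h1 : V v f ≠ ⊤ := by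
    rw [Ne, AddValuation.top_iff]
    exact (map_ne_zero_iff _ (IsFractionRing.injective S K)).2 hf
  obtain ⟨n, hn⟩ := WithTop.ne_top_iff_exists.1 h1
  have h2 : (0 : WithTop ℤ) ≤ (n : WithTop ℤ) := hn ▸ hv f
  have h3 : 0 ≤ n := by exact_mod_cast h2
  exact ⟨n.toNat, by rw [← hn, Int.toNat_of_nonneg h3]⟩

lemma V_mul (f g : S) : V v (f * g) = V v f + V v g := by
  simp [V]

lemma V_const_mul (hv : ∀ f : S, 0 ≤ V v f) (k : ℂ) (f : S) : V v f ≤ V v (C k * f) := by
  rw [V_mul]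
  calc V v f = 0 + V v f := (zero_add _).symm
    _ ≤ _ := by gcongr; exact hv _

lemma V_add (f g : S) : min (V v f) (V v g) ≤ V v (f + g) := by
  simp only [V, map_add]
  exact v.map_add _ _

/-- Every linear form is a combination of the forms of a coordinate system. -/
lemma exists_coeffs (s : Fin 3 → Fin 3 → ℂ) (hs : LinearIndependent ℂ s) (a : Fin 3 → ℂ) :
    ∃ κ : Fin 3 → ℂ, a = κ 0 • s 0 + κ 1 • s 1 + κ 2 • s 2 := by
  have h := isUnit_det s hs
  refine ⟨Matrix.vecMul a (Matrix.of s)⁻¹, ?_⟩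
  have h1 : Matrix.vecMul (Matrix.vecMul a (Matrix.of s)⁻¹) (Matrix.of s) = a := by
    rw [Matrix.vecMul_vecMul, Matrix.nonsing_inv_mul _ h, Matrix.vecMul_one]
  conv_lhs => rw [← h1]
  funext j
  simp only [Matrix.vecMul, dotProduct, Fin.sum_univ_three, Matrix.of_apply, Pi.add_apply,
    Pi.smul_apply, smul_eq_mul]

lemma lin_mem_span (s : Fin 3 → Fin 3 → ℂ) (hs : LinearIndependent ℂ s) (w : Fin 3 → ℕ)
    (hw : ∀ k, 1 ≤ w k) (a : Fin 3 → ℂ) : lin a ∈ wIdeal s w 1 := by
  obtain ⟨κ, hκ⟩ := exists_coeffs s hs a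
  have h1 : ∀ k, lin (s k) ∈ wIdeal s w 1 := fun k =>
    wIdeal_antitone s w (hw k) (lin_mem_wIdeal s w k)
  rw [hκ, lin_add, lin_add, lin_smul, lin_smul, lin_smul]
  exact add_mem (add_mem (Ideal.mul_mem_left _ _ (h1 0)) (Ideal.mul_mem_left _ _ (h1 1)))
    (Ideal.mul_mem_left _ _ (h1 2))

/-- If the three forms of a coordinate system have value `> t`, so has every linear form. -/
lemma lt_of_coords (hv : ∀ f : S, 0 ≤ V v f) (s : Fin 3 → Fin 3 → ℂ)
    (hs : LinearIndependent ℂ s) (t : WithTop ℤ) (h : ∀ k, t < V v (lin (s k)))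
    (a : Fin 3 → ℂ) : t < V v (lin a) := by
  obtain ⟨κ, hκ⟩ := exists_coeffs s hs a
  have h1 : ∀ k, t < V v (C (κ k) * lin (s k)) := fun k => (h k).trans_le (V_const_mul hv _ _)
  rw [hκ, lin_add, lin_add, lin_smul, lin_smul, lin_smul]
  exact lt_of_lt_of_le (lt_min (lt_of_lt_of_le (lt_min (h1 0) (h1 1)) (V_add _ _)) (h1 2))
    (V_add _ _)

lemma lin_eq_X (i : Fin 3) : lin (Pi.single i 1) = X i := by
  simp [lin, Pi.single_apply]

lemma indep_single : LinearIndependent ℂ (fun i : Fin 3 => (Pi.single i 1 : Fin 3 → ℂ)) :=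
  Pi.linearIndependent_single_one (Fin 3) ℂ

/-- The least value of a linear form. -/
lemma exists_t (hv : ∀ f : S, 0 ≤ V v f) : ∃ t : ℕ,
    (∀ i, ((t : ℤ) : WithTop ℤ) ≤ V v (X i)) ∧ ∃ i, V v (X i) = ((t : ℤ) : WithTop ℤ) := by
  obtain ⟨i, _, hi⟩ := Finset.exists_min_image (Finset.univ : Finset (Fin 3))
    (fun i => V v (X i)) ⟨0, Finset.mem_univ _⟩
  obtain ⟨t, ht⟩ := V_nat hv (X_ne_zero i)
  exact ⟨t, fun j => ht ▸ hi j (Finset.mem_univ j), i, ht⟩

lemma le_lin (hv : ∀ f : S, 0 ≤ V v f) (t : ℕ) (ht : ∀ i, ((t : ℤ) : WithTop ℤ) ≤ V v (X i))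
    (a : Fin 3 → ℂ) : ((t : ℤ) : WithTop ℤ) ≤ V v (lin a) := by
  unfold lin
  rw [Fin.sum_univ_three]
  have h1 : ∀ k, ((t : ℤ) : WithTop ℤ) ≤ V v (C (a k) * X k) := fun k =>
    (ht k).trans (V_const_mul hv _ _)
  exact le_trans (le_min (le_trans (le_min (h1 0) (h1 1)) (V_add _ _)) (h1 2)) (V_add _ _)

/-- Complete a linear form through `p` and a form not through `p`. -/
lemma exists_through (p : Plane) (s₀ : Fin 3 → ℂ) (h0 : s₀ ≠ 0) (hs₀ : OnLine s₀ p) :
    ∃ s₁ m : Fin 3 → ℂ, OnLine s₁ p ∧ ¬ OnLine m p ∧ LinearIndependent ℂ ![s₀, s₁, m] := by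
  classical
  -- `m` = conjugate of the representative
  let m : Fin 3 → ℂ := fun i => star (p.rep i)
  have hm : ¬ OnLine m p := by
    intro h
    apply p.rep_nonzero
    have h1 : ∑ i, star (p.rep i) * p.rep i = 0 := h
    have h2 : dotProduct (star p.rep) p.rep = 0 := h1
    exact dotProduct_star_self_eq_zero.1 h2
  -- `s₁` = cross product of `p.rep` and `conj s₀`
  let s₁ : Fin 3 → ℂ := crossProduct p.rep (star s₀)
  have hs₁ : OnLine s₁ p := by
    have : dotProduct p.rep (crossProduct p.rep (star s₀)) = 0 := dot_self_cross _ _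
    rw [dotProduct_comm] at this
    exact this
  refine ⟨s₁, m, hs₁, hm, ?_⟩
  have h01 : LinearIndependent ℂ ![s₀, s₁] := by
    rw [LinearIndependent.pair_iff]
    intro x y hxy
    -- pair with conj s₀ : x * |s₀|² = 0
    have h1 : dotProduct (star s₀) (x • s₀ + y • s₁) = 0 := by rw [hxy]; simp
    rw [dotProduct_add, dotProduct_smul, dotProduct_smul] at h1
    have h2 : dotProduct (star s₀) s₁ = 0 := dot_cross_self _ _
    rw [h2, smul_zero, add_zero] at h1
    have h3 : dotProduct (star s₀) s₀ ≠ 0 := by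
      intro h; exact h0 (dotProduct_star_self_eq_zero.1 h)
    have hx : x = 0 := by
      simpa [h3] using h1
    refine ⟨hx, ?_⟩
    rw [hx, zero_smul, zero_add] at hxy
    by_contra hy
    have h4 : s₁ = 0 := by
      have := congrArg (fun z => y⁻¹ • z) hxy
      simpa [smul_smul, inv_mul_cancel₀ hy] using this
    -- then conj s₀ is a multiple of p.rep, so s₀ · p.rep ≠ 0
    have h5 : dotProduct s₁ (star s₁) = 0 := by rw [h4]; simp
    have h6 : crossProduct p.rep (star s₀) = 0 := h4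
    -- |p|²|s₀|² = |p·s₀|² + |p × conj s₀|²
    have c0 := congrFun h6 0
    have c1 := congrFun h6 1
    have c2 := congrFun h6 2
    simp only [cross_apply, Pi.star_apply, Matrix.cons_val_zero, Matrix.cons_val_one,
      Pi.zero_apply, Matrix.cons_val] at c0 c1 c2
    have hon : s₀ 0 * p.rep 0 + s₀ 1 * p.rep 1 + s₀ 2 * p.rep 2 = 0 := by
      have := hs₀
      unfold OnLine at this
      rwa [Fin.sum_univ_three] at this
    have h7 : ∀ i, p.rep i * dotProduct (star s₀) s₀ = 0 := by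
      intro i
      simp only [dotProduct, Fin.sum_univ_three, Pi.star_apply]
      fin_cases i
      · simp only [Fin.zero_eta]
        linear_combination (star (s₀ 0)) * hon + s₀ 1 * c2 - s₀ 2 * c1
      · simp only [Fin.mk_one]
        linear_combination (star (s₀ 1)) * hon - s₀ 0 * c2 + s₀ 2 * c0
      · simp only [Fin.reduceFinMk]
        linear_combination (star (s₀ 2)) * hon + s₀ 0 * c1 - s₀ 1 * c0
    apply p.rep_nonzero
    funext i
    exact (mul_eq_zero.1 (h7 i)).resolve_right h3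
  rw [show (![s₀, s₁, m] : Fin 3 → Fin 3 → ℂ) = Fin.snoc ![s₀, s₁] m by
    funext i; fin_cases i <;> rfl]
  rw [linearIndependent_finSnoc]
  refine ⟨h01, ?_⟩
  intro hmem
  rw [Matrix.range_cons, Matrix.range_cons, Matrix.range_empty] at hmem
  simp only [Set.union_empty] at hmem
  rw [Set.singleton_union, Submodule.mem_span_pair] at hmem
  obtain ⟨x, y, hxy⟩ := hmem
  apply hm
  unfold OnLine at hs₀ hs₁ ⊢
  rw [← hxy]
  simp only [Pi.add_apply, Pi.smul_apply, smul_eq_mul, add_mul, Finset.sum_add_distrib, mul_assoc,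
    ← Finset.mul_sum, hs₀, hs₁, mul_zero, add_zero]

/-- If every form through `p` has value `> t` then every form not through `p` has value `t`. -/
lemma eq_of_not_through (hv : ∀ f : S, 0 ≤ V v f) (t : ℕ)
    (ht : ∀ i, ((t : ℤ) : WithTop ℤ) ≤ V v (X i)) (ht' : ∃ i, V v (X i) = ((t : ℤ) : WithTop ℤ))
    (p : Plane) (hp : ∀ s, OnLine s p → ((t : ℤ) : WithTop ℤ) < V v (lin s))
    (m : Fin 3 → ℂ) (hm : ¬ OnLine m p) : V v (lin m) = ((t : ℤ) : WithTop ℤ) := by
  by_contra hne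
  have hlt : ((t : ℤ) : WithTop ℤ) < V v (lin m) := lt_of_le_of_ne (le_lin hv t ht m) (Ne.symm hne)
  obtain ⟨i, hi⟩ := ht'
  set a : Fin 3 → ℂ := Pi.single i 1 with ha
  set κ := (∑ j, a j * p.rep j) / (∑ j, m j * p.rep j) with hκ
  have hon : OnLine (a - κ • m) p := by
    unfold OnLine at hm ⊢
    simp only [Pi.sub_apply, Pi.smul_apply, smul_eq_mul, sub_mul, Finset.sum_sub_distrib, mul_assoc,
      ← Finset.mul_sum]
    rw [hκ, div_mul_cancel₀ _ hm, sub_self]
  have h1 := hp _ hon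
  have h2 : lin a = lin (a - κ • m) + C κ * lin m := by
    rw [← lin_smul, ← lin_add]; congr 1; simp
  have h3 : ((t : ℤ) : WithTop ℤ) < V v (lin a) := by
    rw [h2]
    exact lt_of_lt_of_le (lt_min h1 (hlt.trans_le (V_const_mul hv _ _))) (V_add _ _)
  rw [ha, lin_eq_X, hi] at h3
  exact lt_irrefl _ h3

end Pool.Agent.Helper61.MI
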